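import Mathlib

set_option autoImplicit false

open MeasureTheory Filter Topology Set
open scoped ContDiff

namespace Pool.Agent.H779R2.Hardy

abbrev V (n : ℕ) := EuclideanSpace ℝ (Fin n)

variable {n : ℕ}

/-- the weight `1 + |x|^2` -/
noncomputable def w (x : V n) : ℝ := 1 + ‖x‖ ^ 2

lemma one_le_w (x : V n) : 1 ≤ w x := by unfold w; nlinarith [sq_nonneg ‖x‖]

lemma w_pos (x : V n) : 0 < w x := lt_of_lt_of_le one_pos (one_le_w x)

lemma w_contDiff {m : WithTop ℕ∞} : ContDiff ℝ m (w : V n → ℝ) := by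
  unfold w
  exact contDiff_const.add (contDiff_norm_sq ℝ)

lemma w_cont : Continuous (w : V n → ℝ) := (w_contDiff (m := 0)).continuous

lemma w_fderiv (x v : V n) : fderiv ℝ w x v = 2 * inner ℝ x v := by
  have h : HasFDerivAt (w : V n → ℝ) ((0 : V n →L[ℝ] ℝ) + 2 • (innerSL ℝ x)) x :=
    (hasFDerivAt_const _ _).add (hasStrictFDerivAt_norm_sq x).hasFDerivAt
  rw [h.fderiv]
  simp [two_mul]

lemma w_rpow_contDiff {m : WithTop ℕ∞} (s : ℝ) : ContDiff ℝ m (fun x : V n => w x ^ s) :=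
  w_contDiff.rpow_const_of_ne (fun x => (w_pos x).ne')

lemma w_rpow_cont (s : ℝ) : Continuous (fun x : V n => w x ^ s) := (w_rpow_contDiff (m := 0) s).continuous

lemma w_rpow_pos (s : ℝ) (x : V n) : 0 < w x ^ s := Real.rpow_pos_of_pos (w_pos x) s

lemma w_rpow_fderiv (s : ℝ) (x v : V n) :
    fderiv ℝ (fun x : V n => w x ^ s) x v = 2 * s * w x ^ (s - 1) * inner ℝ x v := by
  have h1 : HasFDerivAt (w : V n → ℝ) (fderiv ℝ w x) x :=
    ((w_contDiff (m := 1)).differentiable one_ne_zero x).hasFDerivAt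
  have h2 := h1.rpow_const (p := s) (Or.inl (w_pos x).ne')
  rw [h2.fderiv]
  simp only [_root_.smul_apply, w_fderiv, smul_eq_mul]
  ring

/-- Lemma B : the integral of a directional derivative vanishes. -/
lemma int_fderiv_dir {h : V n → ℝ} (hc : ContDiff ℝ 1 h) (hs : HasCompactSupport h) (e : V n) :
    ∫ x, fderiv ℝ h x e = 0 := by
  have hd : Differentiable ℝ h := hc.differentiable one_ne_zero
  have h1 : Continuous fun x => fderiv ℝ h x e := (hc.continuous_fderiv one_ne_zero).clm_apply continuous_const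
  have hs1 : HasCompactSupport fun x => fderiv ℝ h x e := by
    have := hs.fderiv (𝕜 := ℝ)
    exact this.comp_left (g := fun L : V n →L[ℝ] ℝ => L e) (by simp)
  have := integral_mul_fderiv_eq_neg_fderiv_mul_of_integrable (μ := (volume : Measure (V n)))
    (f := fun _ => (1 : ℝ)) (g := h) (v := e) (by simp) (by simpa using h1.integrable_of_hasCompactSupport hs1)
    (by simpa using hc.continuous.integrable_of_hasCompactSupport hs)
    (fun x _ => differentiableAt_const _) (fun x _ => hd x)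
  simpa using this

/-- Lemma A : divergence theorem for the field `h(x) x`. -/
lemma int_div_radial {h : V n → ℝ} (hc : ContDiff ℝ 1 h) (hs : HasCompactSupport h) :
    ∫ x, ((n : ℝ) * h x + fderiv ℝ h x x) = 0 := by
  have hd : Differentiable ℝ h := hc.differentiable one_ne_zero
  have key : ∀ i : Fin n, ∫ x : V n, (h x + x i * fderiv ℝ h x (EuclideanSpace.single i 1)) = 0 := by
    intro i
    have hcc : ContDiff ℝ 1 (fun x : V n => x i * h x) := by
      have : ContDiff ℝ 1 (fun x : V n => x i) := by fun_prop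
      exact this.mul hc
    have hss : HasCompactSupport (fun x : V n => x i * h x) := hs.mul_left
    have := int_fderiv_dir hcc hss (EuclideanSpace.single i 1)
    rw [← this]
    congr 1
    ext x
    have h1 : HasFDerivAt (fun x : V n => x i) (EuclideanSpace.proj (𝕜 := ℝ) i : V n →L[ℝ] ℝ) x :=
      (EuclideanSpace.proj (𝕜 := ℝ) i : V n →L[ℝ] ℝ).hasFDerivAt
    have h2 := h1.mul (hd x).hasFDerivAt
    have h3 : fderiv ℝ (fun x : V n => x i * h x) x = _ := h2.fderiv
    rw [h3]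
    simp
    ring
  have hint : ∀ i : Fin n, Integrable (fun x : V n => (h x + x i * fderiv ℝ h x (EuclideanSpace.single i 1))) := by
    intro i
    apply Continuous.integrable_of_hasCompactSupport
    · refine hc.continuous.add (Continuous.mul (by fun_prop) ?_)
      exact (hc.continuous_fderiv one_ne_zero).clm_apply continuous_const
    · refine hs.add ?_
      have := (hs.fderiv (𝕜 := ℝ)).comp_left (g := fun L : V n →L[ℝ] ℝ => L (EuclideanSpace.single i 1)) (by simp)
      exact this.mul_left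
  have : ∫ x : V n, ∑ i : Fin n, (h x + x i * fderiv ℝ h x (EuclideanSpace.single i 1)) = 0 := by
    rw [integral_finsetSum _ (fun i _ => hint i)]
    simp [key]
  rw [← this]
  congr 1
  ext x
  rw [Finset.sum_add_distrib]
  simp only [Finset.sum_const, Finset.card_univ, Fintype.card_fin, nsmul_eq_mul]
  congr 1
  have hx : x = ∑ i : Fin n, x i • (EuclideanSpace.single i (1:ℝ) : V n) := by
    ext j
    simp [Pi.single_apply]
  conv_lhs => rw [show fderiv ℝ h x x = fderiv ℝ h x (∑ i : Fin n, x i • (EuclideanSpace.single i (1:ℝ) : V n)) from by rw [← hx]]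
  rw [map_sum]
  simp

/-- The energy `∫ (1+|x|^2)^α |∇u|^2`. -/
noncomputable def En (α : ℝ) (u : V n → ℝ) : ℝ := ∫ x, w x ^ α * ‖fderiv ℝ u x‖ ^ 2

/-- The mass `∫ (1+|x|^2)^(α-1) u^2`. -/
noncomputable def Ms (α : ℝ) (u : V n → ℝ) : ℝ := ∫ x, w x ^ (α - 1) * u x ^ 2

lemma hcs_fderiv_dir {h : V n → ℝ} (hs : HasCompactSupport h) (v : V n → V n) :
    HasCompactSupport fun x => fderiv ℝ h x (v x) := by
  have := hs.fderiv (𝕜 := ℝ)
  refine this.mono ?_
  intro x hx
  simp only [Function.mem_support] at hx ⊢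
  intro h0
  apply hx
  rw [h0]; simp

lemma En_integrable (α : ℝ) {u : V n → ℝ} (hc : ContDiff ℝ 1 u) (hs : HasCompactSupport u) :
    Integrable fun x => w x ^ α * ‖fderiv ℝ u x‖ ^ 2 := by
  apply Continuous.integrable_of_hasCompactSupport
  · exact (w_rpow_cont α).mul ((hc.continuous_fderiv one_ne_zero).norm.pow 2)
  · refine HasCompactSupport.mul_left ?_
    exact (hs.fderiv (𝕜 := ℝ)).comp_left (g := fun L : V n →L[ℝ] ℝ => ‖L‖ ^ 2) (by simp)

lemma Ms_integrable (α : ℝ) {u : V n → ℝ} (hc : Continuous u) (hs : HasCompactSupport u) :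
    Integrable fun x => w x ^ (α - 1) * u x ^ 2 := by
  apply Continuous.integrable_of_hasCompactSupport
  · exact (w_rpow_cont _).mul (hc.pow 2)
  · refine HasCompactSupport.mul_left ?_
    exact hs.comp_left (g := fun t : ℝ => t ^ 2) (by simp)

/-- pointwise completion of the square -/
lemma sq_complete (L : V n →L[ℝ] ℝ) (v : V n) {a : ℝ} (ha : 0 < a) (c : ℝ) :
    0 ≤ a * ‖L‖ ^ 2 + 2 * c * L v + a⁻¹ * c ^ 2 * ‖v‖ ^ 2 := by
  have h1 : |L v| ≤ ‖L‖ * ‖v‖ := by simpa using L.le_opNorm v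
  have h2 : -(|c| * (‖L‖ * ‖v‖)) ≤ c * L v := by
    have := abs_mul c (L v)
    have h3 : |c * L v| ≤ |c| * (‖L‖ * ‖v‖) := by
      rw [this]; exact mul_le_mul_of_nonneg_left h1 (abs_nonneg c)
    exact (abs_le.1 h3).1
  have h3 : a⁻¹ * c ^ 2 * ‖v‖ ^ 2 = a⁻¹ * (|c| * ‖v‖) ^ 2 := by
    rw [mul_pow, sq_abs]; ring
  have h4 : 0 ≤ a⁻¹ * (a * ‖L‖ - |c| * ‖v‖) ^ 2 := by positivity
  have h5 : a⁻¹ * (a * ‖L‖ - |c| * ‖v‖) ^ 2 =
      a * ‖L‖ ^ 2 - 2 * (|c| * (‖L‖ * ‖v‖)) + a⁻¹ * (|c| * ‖v‖) ^ 2 := by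
    field_simp
    ring
  rw [h3]
  nlinarith

/-- T-method with the field `w^α T = ρ x`. -/
lemma T_radial (α : ℝ) {f ρ : V n → ℝ} (hf : ContDiff ℝ 1 f) (hs : HasCompactSupport f)
    (hρ : ContDiff ℝ 1 ρ) :
    ∫ x, f x ^ 2 * ((n : ℝ) * ρ x + fderiv ℝ ρ x x - (w x ^ α)⁻¹ * ρ x ^ 2 * ‖x‖ ^ 2) ≤ En α f := by
  have hh : ContDiff ℝ 1 (fun x => f x ^ 2 * ρ x) := (hf.pow 2).mul hρ
  have hf2 : HasCompactSupport (fun x => f x ^ 2) := hs.comp_left (g := fun t : ℝ => t ^ 2) (by simp)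
  have hhs : HasCompactSupport (fun x => f x ^ 2 * ρ x) := hf2.mul_right
  have h0 := int_div_radial hh hhs
  have hder : ∀ x, fderiv ℝ (fun x => f x ^ 2 * ρ x) x x =
      2 * (f x * ρ x) * fderiv ℝ f x x + f x ^ 2 * fderiv ℝ ρ x x := by
    intro x
    have h1 := ((hf.differentiable one_ne_zero) x).hasFDerivAt
    have h2 := ((hρ.differentiable one_ne_zero) x).hasFDerivAt
    have h3 := (h1.pow 2).mul h2
    have h4 : fderiv ℝ (fun x => f x ^ 2 * ρ x) x = _ := h3.fderiv
    rw [h4]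
    simp
    ring
  have i1 : Integrable (fun x => (n : ℝ) * (f x ^ 2 * ρ x) + fderiv ℝ (fun x => f x ^ 2 * ρ x) x x) := by
    apply Continuous.integrable_of_hasCompactSupport
    · exact (continuous_const.mul hh.continuous).add ((hh.continuous_fderiv one_ne_zero).clm_apply continuous_id)
    · exact (hhs.mul_left).add (hcs_fderiv_dir hhs _)
  have i2 : Integrable (fun x => f x ^ 2 * ((n : ℝ) * ρ x + fderiv ℝ ρ x x - (w x ^ α)⁻¹ * ρ x ^ 2 * ‖x‖ ^ 2)) := by
    apply Continuous.integrable_of_hasCompactSupport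
    · refine (hf.continuous.pow 2).mul ?_
      refine ((continuous_const.mul hρ.continuous).add ((hρ.continuous_fderiv one_ne_zero).clm_apply continuous_id)).sub ?_
      refine (((w_rpow_cont α).inv₀ (fun x => (w_rpow_pos α x).ne')).mul (hρ.continuous.pow 2)).mul ?_
      fun_prop
    · exact hf2.mul_right
  have i3 := En_integrable α hf hs
  unfold En
  have : ∫ x, f x ^ 2 * ((n : ℝ) * ρ x + fderiv ℝ ρ x x - (w x ^ α)⁻¹ * ρ x ^ 2 * ‖x‖ ^ 2) =
      ∫ x, (f x ^ 2 * ((n : ℝ) * ρ x + fderiv ℝ ρ x x - (w x ^ α)⁻¹ * ρ x ^ 2 * ‖x‖ ^ 2)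
        - ((n : ℝ) * (f x ^ 2 * ρ x) + fderiv ℝ (fun x => f x ^ 2 * ρ x) x x)) := by
    rw [integral_sub i2 i1, h0, sub_zero]
  rw [this]
  refine integral_mono (i2.sub i1) i3 ?_
  intro x
  simp only [hder]
  have := sq_complete (fderiv ℝ f x) x (w_rpow_pos α x) (f x * ρ x)
  nlinarith

/-- T-method with the field `w^α T = ρ e`, `e` a fixed vector. -/
lemma T_dir (α : ℝ) {f ρ : V n → ℝ} (hf : ContDiff ℝ 1 f) (hs : HasCompactSupport f)
    (hρ : ContDiff ℝ 1 ρ) (e : V n) :
    ∫ x, f x ^ 2 * (fderiv ℝ ρ x e - (w x ^ α)⁻¹ * ρ x ^ 2 * ‖e‖ ^ 2) ≤ En α f := by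
  have hh : ContDiff ℝ 1 (fun x => f x ^ 2 * ρ x) := (hf.pow 2).mul hρ
  have hf2 : HasCompactSupport (fun x => f x ^ 2) := hs.comp_left (g := fun t : ℝ => t ^ 2) (by simp)
  have hhs : HasCompactSupport (fun x => f x ^ 2 * ρ x) := hf2.mul_right
  have h0 := int_fderiv_dir hh hhs e
  have hder : ∀ x, fderiv ℝ (fun x => f x ^ 2 * ρ x) x e =
      2 * (f x * ρ x) * fderiv ℝ f x e + f x ^ 2 * fderiv ℝ ρ x e := by
    intro x
    have h1 := ((hf.differentiable one_ne_zero) x).hasFDerivAt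
    have h2 := ((hρ.differentiable one_ne_zero) x).hasFDerivAt
    have h3 := (h1.pow 2).mul h2
    have h4 : fderiv ℝ (fun x => f x ^ 2 * ρ x) x = _ := h3.fderiv
    rw [h4]
    simp
    ring
  have i1 : Integrable (fun x => fderiv ℝ (fun x => f x ^ 2 * ρ x) x e) := by
    apply Continuous.integrable_of_hasCompactSupport
    · exact ((hh.continuous_fderiv one_ne_zero).clm_apply continuous_const)
    · exact (hcs_fderiv_dir hhs (fun _ => e))
  have i2 : Integrable (fun x => f x ^ 2 * (fderiv ℝ ρ x e - (w x ^ α)⁻¹ * ρ x ^ 2 * ‖e‖ ^ 2)) := by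
    apply Continuous.integrable_of_hasCompactSupport
    · refine (hf.continuous.pow 2).mul ?_
      refine (((hρ.continuous_fderiv one_ne_zero).clm_apply continuous_const)).sub ?_
      refine (((w_rpow_cont α).inv₀ (fun x => (w_rpow_pos α x).ne')).mul (hρ.continuous.pow 2)).mul ?_
      fun_prop
    · exact hf2.mul_right
  have i3 := En_integrable α hf hs
  unfold En
  have : ∫ x, f x ^ 2 * (fderiv ℝ ρ x e - (w x ^ α)⁻¹ * ρ x ^ 2 * ‖e‖ ^ 2) =
      ∫ x, (f x ^ 2 * (fderiv ℝ ρ x e - (w x ^ α)⁻¹ * ρ x ^ 2 * ‖e‖ ^ 2)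
        - (fderiv ℝ (fun x => f x ^ 2 * ρ x) x e)) := by
    rw [integral_sub i2 i1, h0, sub_zero]
  rw [this]
  refine integral_mono (i2.sub i1) i3 ?_
  intro x
  simp only [hder]
  have := sq_complete (fderiv ℝ f x) e (w_rpow_pos α x) (f x * ρ x)
  nlinarith

/-- The lower bound for `α > α^*`. -/
lemma lower_pos (α c lam : ℝ) (h1 : lam ≤ c * n) (h2 : lam ≤ c * (n + 2 * α - 2 - c))
    {f : V n → ℝ} (hf : ContDiff ℝ 1 f) (hs : HasCompactSupport f) :
    lam * Ms α f ≤ En α f := by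
  have hρ : ContDiff ℝ 1 (fun x : V n => c * w x ^ (α - 1)) := contDiff_const.mul (w_rpow_contDiff _)
  refine le_trans ?_ (T_radial α hf hs hρ)
  unfold Ms
  rw [← integral_const_mul]
  refine integral_mono ((Ms_integrable α hf.continuous hs).const_mul lam) ?_ ?_
  · have hf2 : HasCompactSupport (fun x => f x ^ 2) := hs.comp_left (g := fun t : ℝ => t ^ 2) (by simp)
    apply Continuous.integrable_of_hasCompactSupport
    · refine (hf.continuous.pow 2).mul ?_
      refine ((continuous_const.mul hρ.continuous).add ((hρ.continuous_fderiv one_ne_zero).clm_apply continuous_id)).sub ?_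
      refine (((w_rpow_cont α).inv₀ (fun x => (w_rpow_pos α x).ne')).mul (hρ.continuous.pow 2)).mul ?_
      fun_prop
    · exact hf2.mul_right
  · intro x
    have hd : fderiv ℝ (fun x : V n => c * w x ^ (α - 1)) x x = c * (2 * (α - 1) * w x ^ (α - 2) * ‖x‖ ^ 2) := by
      have h3 := ((w_rpow_contDiff (m := 1) (n := n) (α - 1)).differentiable one_ne_zero x).hasFDerivAt.const_mul c
      rw [h3.fderiv]
      simp only [_root_.smul_apply, smul_eq_mul, w_rpow_fderiv, real_inner_self_eq_norm_sq]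
      rw [show α - 1 - 1 = α - 2 by ring]
    simp only [hd]
    have hw := w_pos x
    have e1 : w x ^ (α - 1) = w x ^ (α - 2) * w x := by
      rw [← Real.rpow_add_one hw.ne']; congr 1; ring
    have e2 : w x ^ α = w x ^ (α - 2) * w x ^ 2 := by
      rw [← Real.rpow_natCast, ← Real.rpow_add hw]; congr 1; push_cast; ring
    have hr : ‖x‖ ^ 2 = w x - 1 := by unfold w; ring
    have hp := w_rpow_pos (α - 2) x
    rw [e1, e2, hr]
    have h1w := one_le_w x
    have e3 : (w x ^ (α - 2) * w x ^ 2)⁻¹ * (c * (w x ^ (α - 2) * w x)) ^ 2 = c ^ 2 * w x ^ (α - 2) := by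
      field_simp
    rw [e3]
    have : lam * (w x ^ (α - 2) * w x * f x ^ 2) ≤ f x ^ 2 * (w x ^ (α - 2) * (c * n * 1 + (w x - 1) * (c * (n + 2 * α - 2 - c)))) := by
      have h4 : lam * w x ≤ c * n * 1 + (w x - 1) * (c * (n + 2 * α - 2 - c)) := by nlinarith
      have h5 : 0 ≤ f x ^ 2 * w x ^ (α - 2) := by positivity
      nlinarith [mul_le_mul_of_nonneg_left h4 h5]
    refine this.trans (le_of_eq ?_)
    ring

end Pool.Agent.H779R2.Hardy
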