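import Pool.Agent.H779R2.Hardy.Basic

set_option autoImplicit false

open MeasureTheory Filter Topology Set
open scoped ContDiff

namespace Pool.Agent.H779R2.Hardy

variable {n : ℕ}

/-- smooth cutoff on the line: `1` on `(-∞,1]`, `0` on `[2,∞)`. -/
noncomputable def eta (t : ℝ) : ℝ := Real.smoothTransition (2 - t)

lemma eta_contDiff : ContDiff ℝ ∞ eta := by
  unfold eta
  exact (Real.smoothTransition.contDiff).comp (contDiff_const.sub contDiff_id)

lemma eta_one {t : ℝ} (h : t ≤ 1) : eta t = 1 := by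
  unfold eta; exact Real.smoothTransition.one_of_one_le (by linarith)

lemma eta_zero {t : ℝ} (h : 2 ≤ t) : eta t = 0 := by
  unfold eta; exact Real.smoothTransition.zero_of_nonpos (by linarith)

lemma eta_nonneg (t : ℝ) : 0 ≤ eta t := Real.smoothTransition.nonneg _

lemma eta_le_one (t : ℝ) : eta t ≤ 1 := Real.smoothTransition.le_one _

lemma eta_deriv_bdd : ∃ K : ℝ, 0 ≤ K ∧ ∀ t, |deriv eta t| ≤ K := by
  have hc : Continuous (deriv eta) := eta_contDiff.continuous_deriv (by simp)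
  obtain ⟨K, hK⟩ := isCompact_Icc.exists_bound_of_continuousOn (s := Icc (1:ℝ) 2) hc.continuousOn
  refine ⟨max K 0, le_max_right _ _, fun t => ?_⟩
  rcases lt_or_ge t 1 with h | h
  · have : eta =ᶠ[𝓝 t] fun _ => 1 := by
      filter_upwards [Iio_mem_nhds h] with s hs
      exact eta_one (le_of_lt hs)
    rw [this.deriv_eq]; simp
  · rcases lt_or_ge 2 t with h2 | h2
    · have : eta =ᶠ[𝓝 t] fun _ => 0 := by
        filter_upwards [Ioi_mem_nhds h2] with s hs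
        exact eta_zero (le_of_lt hs)
      rw [this.deriv_eq]; simp
    · exact le_trans (by simpa using hK t ⟨h, h2⟩) (le_max_left _ _)

noncomputable def K0 : ℝ := Classical.choose eta_deriv_bdd

lemma K0_nonneg : 0 ≤ K0 := (Classical.choose_spec eta_deriv_bdd).1

lemma eta_deriv_le (t : ℝ) : |deriv eta t| ≤ K0 := (Classical.choose_spec eta_deriv_bdd).2 t

/-- radial logarithmic cutoff -/
noncomputable def chi (ε : ℝ) (x : V n) : ℝ := eta (ε * Real.log (w x))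

lemma chi_contDiff (ε : ℝ) : ContDiff ℝ ∞ (chi ε : V n → ℝ) := by
  unfold chi
  exact eta_contDiff.comp (contDiff_const.mul (w_contDiff.log (fun x => (w_pos x).ne')))

lemma chi_nonneg (ε : ℝ) (x : V n) : 0 ≤ chi ε x := eta_nonneg _

lemma chi_le_one (ε : ℝ) (x : V n) : chi ε x ≤ 1 := eta_le_one _

lemma chi_hcs {ε : ℝ} (hε : 0 < ε) : HasCompactSupport (chi ε : V n → ℝ) := by
  refine HasCompactSupport.intro (isCompact_closedBall (0 : V n) (Real.exp (1 / ε))) ?_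
  intro x hx
  rw [mem_closedBall_zero_iff, not_le] at hx
  apply eta_zero
  have h1 : Real.exp (1 / ε) ^ 2 ≤ w x := by
    unfold w
    have := Real.exp_pos (1 / ε)
    nlinarith
  have h2 : 2 / ε ≤ Real.log (w x) := by
    rw [Real.le_log_iff_exp_le (w_pos x)]
    refine le_trans (le_of_eq ?_) h1
    rw [← Real.exp_nat_mul]; congr 1; push_cast; ring
  calc (2 : ℝ) = ε * (2 / ε) := by field_simp
    _ ≤ ε * Real.log (w x) := mul_le_mul_of_nonneg_left h2 hε.le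

lemma chi_eq_one {ε : ℝ} {x : V n} (h : ε * Real.log (w x) ≤ 1) : chi ε x = 1 := eta_one h

lemma chi_neg (ε : ℝ) (x : V n) : chi ε (-x) = chi ε x := by
  unfold chi w; simp

lemma chi_fderiv (ε : ℝ) (x v : V n) :
    fderiv ℝ (chi ε) x v = deriv eta (ε * Real.log (w x)) * (ε * (2 * inner ℝ x v / w x)) := by
  have h1 : HasFDerivAt (w : V n → ℝ) (fderiv ℝ w x) x :=
    ((w_contDiff (m := 1)).differentiable one_ne_zero x).hasFDerivAt
  have h2 := (h1.log (w_pos x).ne').const_mul ε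
  have h3 : HasDerivAt eta (deriv eta (ε * Real.log (w x))) (ε * Real.log (w x)) :=
    ((eta_contDiff.differentiable (by simp)) _).hasDerivAt
  have h4 := h3.comp_hasFDerivAt x h2
  have h5 : fderiv ℝ (chi ε) x = _ := h4.fderiv
  rw [h5]
  simp only [_root_.smul_apply, w_fderiv, smul_eq_mul]
  ring

lemma chi_fderiv_dir (ε : ℝ) (x v : V n) :
    |fderiv ℝ (chi ε) x v| ≤ 2 * K0 * |ε| * (‖x‖ * ‖v‖ / w x) := by
  rw [chi_fderiv, abs_mul, abs_mul, abs_div, abs_mul, abs_of_pos (w_pos x), abs_of_pos (two_pos : (0:ℝ) < 2)]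
  have h1 := eta_deriv_le (ε * Real.log (w x))
  have h2 := abs_real_inner_le_norm x v
  have h3 := K0_nonneg
  have h4 := w_pos x
  calc |deriv eta (ε * Real.log (w x))| * (|ε| * (2 * |inner ℝ x v| / w x))
      ≤ K0 * (|ε| * (2 * (‖x‖ * ‖v‖) / w x)) := by
        gcongr
    _ = _ := by ring

lemma chi_fderiv_norm_sq (ε : ℝ) (x : V n) :
    ‖fderiv ℝ (chi ε) x‖ ^ 2 ≤ 4 * K0 ^ 2 * ε ^ 2 / w x := by
  have h3 := K0_nonneg
  have h4 := w_pos x
  have h1 : ‖fderiv ℝ (chi ε) x‖ ≤ 2 * K0 * |ε| * (‖x‖ / w x) := by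
    apply ContinuousLinearMap.opNorm_le_bound _ (by positivity)
    intro v
    rw [Real.norm_eq_abs]
    refine (chi_fderiv_dir ε x v).trans (le_of_eq ?_)
    ring
  have h2 : ‖fderiv ℝ (chi ε) x‖ ^ 2 ≤ (2 * K0 * |ε| * (‖x‖ / w x)) ^ 2 := by
    gcongr
  refine h2.trans ?_
  have e1 : (2 * K0 * |ε| * (‖x‖ / w x)) ^ 2 = 4 * K0 ^ 2 * ε ^ 2 * (‖x‖ ^ 2 / w x ^ 2) := by
    rw [mul_pow, mul_pow, mul_pow, sq_abs, div_pow]; ring
  rw [e1, show 4 * K0 ^ 2 * ε ^ 2 / w x = 4 * K0 ^ 2 * ε ^ 2 * (1 / w x) by ring]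
  apply mul_le_mul_of_nonneg_left _ (by positivity)
  rw [div_le_div_iff₀ (by positivity) h4]
  have : ‖x‖ ^ 2 ≤ w x := by unfold w; linarith
  nlinarith

lemma chi_tendsto (x : V n) : Tendsto (fun ε : ℝ => chi ε x) (𝓝[>] 0) (𝓝 1) := by
  have h1 : Tendsto (fun ε : ℝ => ε * Real.log (w x)) (𝓝[>] 0) (𝓝 (0 * Real.log (w x))) :=
    (tendsto_nhdsWithin_of_tendsto_nhds tendsto_id).mul_const _
  rw [zero_mul] at h1
  have h2 : ∀ᶠ ε : ℝ in 𝓝[>] 0, ε * Real.log (w x) < 1 := h1.eventually (gt_mem_nhds one_pos)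
  refine tendsto_const_nhds.congr' ?_
  filter_upwards [h2] with ε hε
  exact (chi_eq_one hε.le).symm

/-- integrability of powers of the weight -/
lemma w_integrable {s : ℝ} (hs : s < -(n : ℝ) / 2) : Integrable (fun x : V n => w x ^ s) := by
  have := integrable_rpow_neg_one_add_norm_sq (E := V n) (μ := volume) (r := -2 * s)
    (by rw [finrank_euclideanSpace_fin]; linarith)
  refine this.congr (Eventually.of_forall fun x => ?_)
  unfold w
  simp only
  congr 1; ring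

lemma norm_sq_add_le (a b : V n →L[ℝ] ℝ) {θ : ℝ} (hθ : 0 < θ) :
    ‖a + b‖ ^ 2 ≤ (1 + θ) * ‖a‖ ^ 2 + (1 + 1 / θ) * ‖b‖ ^ 2 := by
  have h1 : ‖a + b‖ ≤ ‖a‖ + ‖b‖ := norm_add_le _ _
  have h2 : ‖a + b‖ ^ 2 ≤ (‖a‖ + ‖b‖) ^ 2 := by gcongr
  refine h2.trans ?_
  have h3 : 0 ≤ (θ * ‖a‖ - ‖b‖) ^ 2 / θ := by positivity
  have h4 : (θ * ‖a‖ - ‖b‖) ^ 2 / θ = θ * ‖a‖ ^ 2 - 2 * ‖a‖ * ‖b‖ + 1 / θ * ‖b‖ ^ 2 := by
    field_simp
    ring
  nlinarith

/-- Passing from compactly supported functions to general ones. -/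
lemma upper_gen (α c : ℝ) (φ : V n → ℝ) (hφ : ContDiff ℝ ∞ φ)
    (I1 : Integrable fun x => w x ^ α * ‖fderiv ℝ φ x‖ ^ 2)
    (I2 : Integrable fun x => w x ^ (α - 1) * φ x ^ 2)
    (m : ℝ → ℝ) (hm : Tendsto m (𝓝[>] 0) (𝓝 0))
    (I3 : (∀ ε, m ε = 0) ∨ Integrable (fun x : V n => w x ^ (α - 1)))
    (hc : ∀ ε : ℝ, 0 < ε → c * Ms α (fun x => chi ε x * (φ x - m ε)) ≤ En α (fun x => chi ε x * (φ x - m ε))) :
    c * Ms α φ ≤ En α φ := by
  obtain ⟨g, hg, hg0, hgm⟩ : ∃ g : V n → ℝ, Integrable g ∧ (∀ x, 0 ≤ g x) ∧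
      ∀ᶠ ε in 𝓝[>] (0:ℝ), ∀ x, w x ^ (α - 1) * m ε ^ 2 ≤ g x := by
    rcases I3 with h | h
    · refine ⟨fun _ => 0, integrable_zero _ _ _, fun _ => le_rfl, ?_⟩
      filter_upwards with ε x
      simp [h ε]
    · refine ⟨fun x => w x ^ (α - 1), h, fun x => (w_rpow_pos _ x).le, ?_⟩
      have : ∀ᶠ ε in 𝓝[>] (0:ℝ), m ε ∈ Ioo (-1 : ℝ) 1 :=
        hm.eventually (Ioo_mem_nhds (by norm_num) (by norm_num))
      filter_upwards [this] with ε hε x
      have h1 : m ε ^ 2 ≤ 1 := by nlinarith [hε.1, hε.2]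
      have h2 := w_rpow_pos (α - 1) x
      nlinarith
  -- limit of the masses
  have L1 : Tendsto (fun ε => Ms α (fun x => chi ε x * (φ x - m ε))) (𝓝[>] 0) (𝓝 (Ms α φ)) := by
    unfold Ms
    refine tendsto_integral_filter_of_dominated_convergence
      (fun x => 2 * (w x ^ (α - 1) * φ x ^ 2) + 2 * g x) ?_ ?_ ((I2.const_mul 2).add (hg.const_mul 2)) ?_
    · filter_upwards with ε
      apply Continuous.aestronglyMeasurable
      exact (w_rpow_cont _).mul (((chi_contDiff ε).continuous.mul (hφ.continuous.sub continuous_const)).pow 2)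
    · filter_upwards [hgm] with ε hε
      filter_upwards with x
      have h1 := chi_nonneg ε x
      have h2 := chi_le_one ε x
      have h3 := w_rpow_pos (α - 1) x
      rw [Real.norm_of_nonneg (by positivity)]
      have h4 : (chi ε x * (φ x - m ε)) ^ 2 ≤ 2 * φ x ^ 2 + 2 * m ε ^ 2 := by
        have : (chi ε x * (φ x - m ε)) ^ 2 ≤ (φ x - m ε) ^ 2 := by
          rw [mul_pow]
          have : chi ε x ^ 2 ≤ 1 := by nlinarith
          nlinarith [sq_nonneg (φ x - m ε)]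
        nlinarith [sq_nonneg (φ x + m ε)]
      have h5 := mul_le_mul_of_nonneg_left h4 h3.le
      have h6 := hε x
      nlinarith
    · filter_upwards with x
      have h1 := chi_tendsto (n := n) x
      have h2 : Tendsto (fun ε => w x ^ (α - 1) * (chi ε x * (φ x - m ε)) ^ 2) (𝓝[>] 0)
          (𝓝 (w x ^ (α - 1) * (1 * (φ x - 0)) ^ 2)) :=
        tendsto_const_nhds.mul ((h1.mul (tendsto_const_nhds.sub hm)).pow 2)
      simpa using h2
  -- bound for the energies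
  set A : ℝ := 2 * Ms α φ + 2 * ∫ x, g x with hA
  have B1 : ∀ᶠ ε in 𝓝[>] (0:ℝ), c * Ms α (fun x => chi ε x * (φ x - m ε)) ≤
      (1 + ε) * En α φ + 4 * K0 ^ 2 * (ε ^ 2 + ε) * A := by
    filter_upwards [hgm, self_mem_nhdsWithin] with ε hε hpos
    have hpos : 0 < ε := hpos
    refine (hc ε hpos).trans ?_
    have hbound : ∀ x : V n, w x ^ α * ‖fderiv ℝ (fun x => chi ε x * (φ x - m ε)) x‖ ^ 2 ≤
        (1 + ε) * (w x ^ α * ‖fderiv ℝ φ x‖ ^ 2) +
        4 * K0 ^ 2 * (ε ^ 2 + ε) * (2 * (w x ^ (α - 1) * φ x ^ 2) + 2 * g x) := by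
      intro x
      have h1 : HasFDerivAt (chi ε : V n → ℝ) (fderiv ℝ (chi ε) x) x :=
        (((chi_contDiff ε).differentiable (by simp)) x).hasFDerivAt
      have h2 : HasFDerivAt (fun x => φ x - m ε) (fderiv ℝ φ x) x :=
        (((hφ).differentiable (by simp)) x).hasFDerivAt.sub_const _
      have h3 := h1.mul h2
      have h4 : fderiv ℝ (fun x => chi ε x * (φ x - m ε)) x = _ := h3.fderiv
      rw [h4]
      have h5 := norm_sq_add_le (chi ε x • fderiv ℝ φ x) ((φ x - m ε) • fderiv ℝ (chi ε) x) hpos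
      rw [norm_smul, norm_smul, mul_pow, mul_pow, Real.norm_eq_abs, Real.norm_eq_abs, sq_abs, sq_abs] at h5
      have h6 := chi_fderiv_norm_sq ε x
      have hw := w_pos x
      have hwa := w_rpow_pos α x
      have hwa1 := w_rpow_pos (α - 1) x
      have e1 : w x ^ α = w x ^ (α - 1) * w x := by
        rw [← Real.rpow_add_one hw.ne']; congr 1; ring
      have c1 := chi_nonneg ε x
      have c2 := chi_le_one ε x
      have c3 : chi ε x ^ 2 ≤ 1 := by nlinarith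
      have h7 : w x ^ α * ‖chi ε x • fderiv ℝ φ x + (φ x - m ε) • fderiv ℝ (chi ε) x‖ ^ 2 ≤
          w x ^ α * ((1 + ε) * (chi ε x ^ 2 * ‖fderiv ℝ φ x‖ ^ 2) +
          (1 + 1 / ε) * ((φ x - m ε) ^ 2 * ‖fderiv ℝ (chi ε) x‖ ^ 2)) :=
        mul_le_mul_of_nonneg_left h5 hwa.le
      refine h7.trans ?_
      rw [mul_add]
      apply add_le_add
      · have : chi ε x ^ 2 * ‖fderiv ℝ φ x‖ ^ 2 ≤ ‖fderiv ℝ φ x‖ ^ 2 := by
          nlinarith [sq_nonneg ‖fderiv ℝ φ x‖]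
        calc w x ^ α * ((1 + ε) * (chi ε x ^ 2 * ‖fderiv ℝ φ x‖ ^ 2))
            = ((1 + ε) * w x ^ α) * (chi ε x ^ 2 * ‖fderiv ℝ φ x‖ ^ 2) := by ring
          _ ≤ ((1 + ε) * w x ^ α) * ‖fderiv ℝ φ x‖ ^ 2 := by gcongr
          _ = _ := by ring
      · have h8 : (φ x - m ε) ^ 2 ≤ 2 * φ x ^ 2 + 2 * m ε ^ 2 := by nlinarith [sq_nonneg (φ x + m ε)]
        have h9 := hε x
        have h10 : w x ^ (α - 1) * (φ x - m ε) ^ 2 ≤ 2 * (w x ^ (α - 1) * φ x ^ 2) + 2 * g x := by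
          nlinarith [mul_le_mul_of_nonneg_left h8 hwa1.le]
        calc w x ^ α * ((1 + 1 / ε) * ((φ x - m ε) ^ 2 * ‖fderiv ℝ (chi ε) x‖ ^ 2))
            ≤ w x ^ α * ((1 + 1 / ε) * ((φ x - m ε) ^ 2 * (4 * K0 ^ 2 * ε ^ 2 / w x))) := by gcongr
          _ = 4 * K0 ^ 2 * (ε ^ 2 + ε) * (w x ^ (α - 1) * (φ x - m ε) ^ 2) := by
              rw [e1]; field_simp
          _ ≤ 4 * K0 ^ 2 * (ε ^ 2 + ε) * (2 * (w x ^ (α - 1) * φ x ^ 2) + 2 * g x) := by
              apply mul_le_mul_of_nonneg_left h10; positivity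
    have hu1 : ContDiff ℝ 1 (fun x => chi ε x * (φ x - m ε)) :=
      ((chi_contDiff ε).of_le (by simp)).mul ((hφ.of_le (by simp)).sub contDiff_const)
    have hus : HasCompactSupport (fun x => chi ε x * (φ x - m ε)) := (chi_hcs hpos).mul_right
    have hint := integral_mono (En_integrable α hu1 hus)
      ((I1.const_mul (1 + ε)).add (((I2.const_mul 2).add (hg.const_mul 2)).const_mul (4 * K0 ^ 2 * (ε ^ 2 + ε)))) hbound
    refine le_trans hint (le_of_eq ?_)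
    have J2 : Integrable (fun x => 2 * (w x ^ (α - 1) * φ x ^ 2) + 2 * g x) :=
      (I2.const_mul 2).add (hg.const_mul 2)
    have e1 : ∫ x, (2 * (w x ^ (α - 1) * φ x ^ 2) + 2 * g x) = A := by
      rw [integral_add (I2.const_mul 2) (hg.const_mul 2), integral_const_mul, integral_const_mul]
      rfl
    have e2 : ∫ x, ((1 + ε) * (w x ^ α * ‖fderiv ℝ φ x‖ ^ 2) +
        4 * K0 ^ 2 * (ε ^ 2 + ε) * (2 * (w x ^ (α - 1) * φ x ^ 2) + 2 * g x)) =
        (1 + ε) * En α φ + 4 * K0 ^ 2 * (ε ^ 2 + ε) * A := by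
      rw [integral_add (I1.const_mul (1 + ε)) (J2.const_mul _), integral_const_mul, integral_const_mul, e1]
      rfl
    exact e2
  have L2 : Tendsto (fun ε : ℝ => (1 + ε) * En α φ + 4 * K0 ^ 2 * (ε ^ 2 + ε) * A) (𝓝[>] 0) (𝓝 (En α φ)) := by
    have : Tendsto (fun ε : ℝ => (1 + ε) * En α φ + 4 * K0 ^ 2 * (ε ^ 2 + ε) * A) (𝓝 0)
        (𝓝 ((1 + 0) * En α φ + 4 * K0 ^ 2 * (0 ^ 2 + 0) * A)) := by
      apply Continuous.tendsto
      fun_prop
    simp at this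
    exact tendsto_nhdsWithin_of_tendsto_nhds this
  exact le_of_tendsto_of_tendsto (L1.const_mul c) L2 B1

end Pool.Agent.H779R2.Hardy
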