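import Pool.Agent.H779R2.Hardy.Lower

set_option autoImplicit false

open MeasureTheory Filter Topology Set
open scoped ContDiff NNReal

namespace Pool.Agent.H779R2.Hardy

variable {n : ℕ}

lemma En_chi_le {α : ℝ} (hα : α < -((n : ℝ) - 2) / 2) {ε : ℝ} (hε : 0 < ε) :
    En α (chi ε : V n → ℝ) ≤ 4 * K0 ^ 2 * ε ^ 2 * ∫ x : V n, w x ^ (α - 1) := by
  unfold En
  rw [← integral_const_mul]
  refine integral_mono (En_integrable α ((chi_contDiff ε).of_le (by simp)) (chi_hcs hε))
    ((w_integrable (by linarith)).const_mul _) ?_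
  intro x
  simp only
  have h1 := chi_fderiv_norm_sq ε x
  have h2 := w_rpow_pos α x
  have h3 := w_pos x
  calc w x ^ α * ‖fderiv ℝ (chi ε) x‖ ^ 2 ≤ w x ^ α * (4 * K0 ^ 2 * ε ^ 2 / w x) := by gcongr
    _ = _ := by rw [rpow_split x α]; field_simp

lemma En_sub_le (α : ℝ) {f h : V n → ℝ} (hf : ContDiff ℝ 1 f) (hfs : HasCompactSupport f)
    (hh : ContDiff ℝ 1 h) (hhs : HasCompactSupport h) (c : ℝ) {θ : ℝ} (hθ : 0 < θ) :
    En α (fun x => f x - c * h x) ≤ (1 + θ) * En α f + (1 + 1 / θ) * (c ^ 2 * En α h) := by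
  have e : (1 + θ) * En α f + (1 + 1 / θ) * (c ^ 2 * En α h) =
      ∫ x, ((1 + θ) * (w x ^ α * ‖fderiv ℝ f x‖ ^ 2) + (1 + 1 / θ) * (c ^ 2 * (w x ^ α * ‖fderiv ℝ h x‖ ^ 2))) := by
    rw [integral_add ((En_integrable α hf hfs).const_mul _) (((En_integrable α hh hhs).const_mul _).const_mul _),
      integral_const_mul, integral_const_mul, integral_const_mul]
    rfl
  rw [e]
  refine integral_mono ?_ ?_ ?_
  · exact En_integrable α (hf.sub (contDiff_const.mul hh)) (hfs.sub hhs.mul_left)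
  · exact ((En_integrable α hf hfs).const_mul _).add (((En_integrable α hh hhs).const_mul _).const_mul _)
  · intro x
    have h1 := ((hf.differentiable one_ne_zero) x).hasFDerivAt
    have h2 := (((hh.differentiable one_ne_zero) x).hasFDerivAt).const_mul c
    have h3 : fderiv ℝ (fun x => f x - c * h x) x = fderiv ℝ f x + (-c) • fderiv ℝ h x := by
      have := (h1.sub h2).fderiv
      rw [show fderiv ℝ (fun x => f x - c * h x) x = _ from this, neg_smul, sub_eq_add_neg]
    simp only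
    rw [h3]
    have h4 := norm_sq_add_le (fderiv ℝ f x) ((-c) • fderiv ℝ h x) hθ
    rw [norm_smul, mul_pow, norm_neg, Real.norm_eq_abs, sq_abs] at h4
    have h5 := mul_le_mul_of_nonneg_left h4 (w_rpow_pos α x).le
    refine h5.trans (le_of_eq ?_)
    ring

/-- the key radial inequality -/
lemma radial_limit {α κ w0 lam K R D : ℝ} {hK : 0 ≤ K} (hn : 0 < n) (hR : 0 ≤ R)
    (hα : α < -((n : ℝ) - 2) / 2) (hw0 : 1 < w0) (hC : Cond n α κ w0 lam) (hlam : 0 ≤ lam)
    (f : ℕ → V n → ℝ) (g : V n → ℝ) (hf : ∀ k, Cls α K R D hK (f k))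
    (hg : ∀ x, Tendsto (fun k => f k x) atTop (𝓝 (g x))) (hrad : ∀ x y, ‖x‖ = ‖y‖ → g x = g y) :
    lam * Ms α g ≤ D - 2 * α * Ms α g := by
  have hgl : LipschitzWith ⟨K, hK⟩ g := by
    apply LipschitzWith.of_dist_le_mul
    intro x y
    have h1 : Tendsto (fun k => dist (f k x) (f k y)) atTop (𝓝 (dist (g x) (g y))) :=
      (hg x).dist (hg y)
    exact le_of_tendsto' h1 (fun k => (hf _).lip.dist_le_mul x y)
  have hgs : ∀ x, R < ‖x‖ → g x = 0 := by
    intro x hx
    refine tendsto_nhds_unique (hg x) (tendsto_const_nhds.congr fun k => ?_)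
    exact ((hf _).supp x hx).symm
  have hgB : ∀ x, |g x| ≤ K * (2 * R + 1) := fun x =>
    le_of_tendsto' (hg x).abs (fun k => (hf k).bound hn hR x)
  have hghcs : HasCompactSupport g := by
    refine HasCompactSupport.intro (isCompact_closedBall (0 : V n) R) ?_
    intro x hx
    rw [mem_closedBall_zero_iff, not_le] at hx
    exact hgs x hx
  set B := K * (2 * R + 1) with hB
  have hBnn : 0 ≤ B := by positivity
  -- mean zero
  have hmean : ∫ x, w x ^ (α - 1) * g x = 0 := by
    have := tendsto_int_ball (q := fun x : V n => w x ^ (α - 1)) (w_rpow_cont _)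
      (fun k => (hf k).cd.continuous) hg B R (fun k x => (hf k).bound hn hR x) (fun k x hx => (hf k).supp x hx)
    refine tendsto_nhds_unique this (tendsto_const_nhds.congr fun k => ?_)
    exact (hf k).mean.symm
  -- masses converge
  have hMs : Tendsto (fun k => Ms α (f k)) atTop (𝓝 (Ms α g)) := by
    unfold Ms
    refine tendsto_int_ball (w_rpow_cont _) (fun k => (hf _).cd.continuous.pow 2)
      (fun x => (hg x).pow 2) (B ^ 2) R ?_ ?_
    · intro k x
      rw [abs_pow]
      exact pow_le_pow_left₀ (abs_nonneg _) ((hf _).bound hn hR x) 2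
    · intro k x hx
      rw [(hf _).supp x hx]; simp
  set L := D - 2 * α * Ms α g with hL
  set e0 : V n := EuclideanSpace.single ⟨0, hn⟩ 1 with he0
  have he01 : ‖e0‖ = 1 := by rw [he0]; simp
  set r0 : ℝ := Real.sqrt (w0 - 1) with hr0
  have hr0pos : 0 < r0 := Real.sqrt_pos.2 (by linarith)
  have hr0sq : r0 ^ 2 = w0 - 1 := Real.sq_sqrt (by linarith)
  set c : ℝ := g (r0 • e0) with hc
  have hnr0 : ‖r0 • e0‖ = r0 := by rw [norm_smul, he01, mul_one, Real.norm_of_nonneg hr0pos.le]
  have hint : Integrable (fun x : V n => w x ^ (α - 1)) := w_integrable (by linarith)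
  set J0 := ∫ x : V n, w x ^ (α - 1) with hJ0
  have hlog : 0 < Real.log w0 := Real.log_pos hw0
  -- main estimate for fixed θ, ε
  have main : ∀ θ : ℝ, 0 < θ → ∀ ε : ℝ, 0 < ε → ε * Real.log w0 ≤ 1 →
      lam * ∫ x, w x ^ (α - 1) * (g x - c * chi ε x) ^ 2 ≤
        (1 + θ) * L + (1 + 1 / θ) * (c ^ 2 * (4 * K0 ^ 2 * ε ^ 2 * J0)) := by
    intro θ hθ ε hε hεl
    have hχ1 : ContDiff ℝ 1 (chi ε : V n → ℝ) := (chi_contDiff ε).of_le (by simp)
    have hχs : HasCompactSupport (chi ε : V n → ℝ) := chi_hcs hε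
    obtain ⟨K1, hK1⟩ := hχ1.lipschitzWith_of_hasCompactSupport hχs one_ne_zero
    have hFl : ∀ x y, |(g x - c * chi ε x) - (g y - c * chi ε y)| ≤ (K + |c| * K1) * ‖x - y‖ := by
      intro x y
      have h1 := hgl.dist_le_mul x y
      have h2 := hK1.dist_le_mul x y
      rw [Real.dist_eq, dist_eq_norm] at h1 h2
      have e1 : (g x - c * chi ε x) - (g y - c * chi ε y) = (g x - g y) - c * (chi ε x - chi ε y) := by ring
      rw [e1]
      refine (abs_sub _ _).trans ?_
      rw [abs_mul]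
      have h3 := mul_le_mul_of_nonneg_left h2 (abs_nonneg c)
      have h1' : |g x - g y| ≤ K * ‖x - y‖ := h1
      nlinarith
    have hF0 : ∀ y : V n, ‖y‖ = r0 → g y - c * chi ε y = 0 := by
      intro y hy
      have h1 : g y = c := by rw [hc]; exact hrad _ _ (by rw [hy, hnr0])
      have h2 : chi ε y = 1 := by
        apply chi_eq_one
        have : w y = w0 := by unfold w; rw [hy, hr0sq]; ring
        rw [this]; exact hεl
      rw [h1, h2]; ring
    have hFz : ∀ x : V n, |g x - c * chi ε x| ≤ ((K + |c| * K1) / r0) * |w x - w0| := by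
      intro x
      obtain ⟨y, hy, hxy⟩ : ∃ y : V n, ‖y‖ = r0 ∧ ‖x - y‖ = |‖x‖ - r0| := by
        by_cases hx : x = 0
        · refine ⟨r0 • e0, hnr0, ?_⟩
          rw [hx, zero_sub, norm_neg, hnr0, norm_zero, zero_sub, abs_neg, abs_of_pos hr0pos]
        · have hxn : 0 < ‖x‖ := norm_pos_iff.2 hx
          refine ⟨(r0 / ‖x‖) • x, ?_, ?_⟩
          · rw [norm_smul, norm_div, norm_norm, div_mul_cancel₀ _ hxn.ne', Real.norm_of_nonneg hr0pos.le]
          · have : x - (r0 / ‖x‖) • x = ((‖x‖ - r0) / ‖x‖) • x := by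
              rw [sub_div, div_self hxn.ne', sub_smul, one_smul]
            rw [this, norm_smul, norm_div, norm_norm, div_mul_cancel₀ _ hxn.ne', Real.norm_eq_abs]
      have h1 := hFl x y
      rw [hF0 y hy, sub_zero, hxy] at h1
      refine h1.trans ?_
      have h2 : |w x - w0| = |‖x‖ - r0| * (‖x‖ + r0) := by
        have : w x - w0 = (‖x‖ - r0) * (‖x‖ + r0) := by
          unfold w; nlinarith
        rw [this, abs_mul, abs_of_nonneg (by positivity : 0 ≤ ‖x‖ + r0)]
      rw [h2]
      have hKK : 0 ≤ K + |c| * (K1 : ℝ) := by positivity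
      rw [div_mul_eq_mul_div, le_div_iff₀ hr0pos]
      have h3 : 0 ≤ |‖x‖ - r0| := abs_nonneg _
      have h4 : |‖x‖ - r0| * r0 ≤ |‖x‖ - r0| * (‖x‖ + r0) := by
        apply mul_le_mul_of_nonneg_left _ h3
        have := norm_nonneg x
        linarith
      calc (K + |c| * ↑K1) * |‖x‖ - r0| * r0 = (K + |c| * ↑K1) * (|‖x‖ - r0| * r0) := by ring
        _ ≤ (K + |c| * ↑K1) * (|‖x‖ - r0| * (‖x‖ + r0)) := mul_le_mul_of_nonneg_left h4 hKK
    have hFc : Continuous (fun x => g x - c * chi ε x) :=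
      hgl.continuous.sub (continuous_const.mul (chi_contDiff ε).continuous)
    have hFs : HasCompactSupport (fun x => g x - c * chi ε x) := hghcs.sub hχs.mul_left
    -- for each δ
    have hδ : ∀ δ : ℝ, 0 < δ → ∫ x, (g x - c * chi ε x) ^ 2 * (lam * w x ^ (α - 1) *
        ((w x - w0) ^ 2 / ((w x - w0) ^ 2 + δ ^ 2)) -
        (4 * κ * (2 - κ) * (w x ^ α * (w x - 1))) * (δ ^ 2 / ((w x - w0) ^ 2 + δ ^ 2) ^ 2)) ≤
        (1 + θ) * L + (1 + 1 / θ) * (c ^ 2 * (4 * K0 ^ 2 * ε ^ 2 * J0)) := by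
      intro δ hδ
      set Q : V n → ℝ := fun x => (lam * w x ^ (α - 1) *
        ((w x - w0) ^ 2 / ((w x - w0) ^ 2 + δ ^ 2)) -
        (4 * κ * (2 - κ) * (w x ^ α * (w x - 1))) * (δ ^ 2 / ((w x - w0) ^ 2 + δ ^ 2) ^ 2)) with hQ
      have hDp : ∀ x : V n, 0 < (w x - w0) ^ 2 + δ ^ 2 := fun x => by positivity
      have hzc : Continuous (fun x : V n => w x - w0) := w_cont.sub continuous_const
      have hQc : Continuous Q := by
        refine ((continuous_const.mul (w_rpow_cont _)).mul
          ((hzc.pow 2).div ((hzc.pow 2).add continuous_const) fun x => (hDp x).ne')).sub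
          ((continuous_const.mul ((w_rpow_cont _).mul (w_cont.sub continuous_const))).mul
          (continuous_const.div (((hzc.pow 2).add continuous_const).pow 2) fun x => (pow_pos (hDp x) 2).ne'))
      obtain ⟨R1, hR1⟩ : ∃ R1 : ℝ, ∀ x : V n, R1 < ‖x‖ → chi ε x = 0 := by
        obtain ⟨R1, hR1⟩ := hχs.isCompact.isBounded.subset_closedBall (0 : V n)
        refine ⟨R1, fun x hx => ?_⟩
        apply image_eq_zero_of_notMem_tsupport
        intro hmem
        have := hR1 hmem
        rw [mem_closedBall_zero_iff] at this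
        linarith
      have lim1 : Tendsto (fun k => ∫ x, Q x * (f k x - c * chi ε x) ^ 2) atTop
          (𝓝 (∫ x, Q x * (g x - c * chi ε x) ^ 2)) := by
        refine tendsto_int_ball hQc
          (fun k => ((hf k).cd.continuous.sub (continuous_const.mul (chi_contDiff ε).continuous)).pow 2)
          (fun x => ((hg x).sub_const _).pow 2) ((B + |c|) ^ 2) (max R R1) ?_ ?_
        · intro k x
          rw [abs_pow]
          refine pow_le_pow_left₀ (abs_nonneg _) ?_ 2
          refine (abs_sub _ _).trans ?_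
          have h1 := (hf k).bound hn hR x
          rw [abs_mul, abs_of_nonneg (chi_nonneg ε x)]
          have h2 := chi_le_one ε x
          have h3 : |c| * chi ε x ≤ |c| * 1 := mul_le_mul_of_nonneg_left h2 (abs_nonneg c)
          linarith
        · intro k x hx
          rw [(hf k).supp x (lt_of_le_of_lt (le_max_left _ _) hx), hR1 x (lt_of_le_of_lt (le_max_right _ _) hx)]
          simp
      have lim2 : Tendsto (fun k => (1 + θ) * (D - 2 * α * Ms α (f k)) +
          (1 + 1 / θ) * (c ^ 2 * (4 * K0 ^ 2 * ε ^ 2 * J0))) atTop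
          (𝓝 ((1 + θ) * L + (1 + 1 / θ) * (c ^ 2 * (4 * K0 ^ 2 * ε ^ 2 * J0)))) := by
        refine Tendsto.add_const _ (Tendsto.const_mul _ ?_)
        exact tendsto_const_nhds.sub (hMs.const_mul (2 * α))
      have hle : ∀ k, ∫ x, Q x * (f k x - c * chi ε x) ^ 2 ≤ (1 + θ) * (D - 2 * α * Ms α (f k)) +
          (1 + 1 / θ) * (c ^ 2 * (4 * K0 ^ 2 * ε ^ 2 * J0)) := by
        intro k
        have hf1 : ContDiff ℝ 1 (f k) := (hf k).cd.of_le (by simp)
        have h1 := radial_T α κ w0 lam hC (f := fun x => f k x - c * chi ε x)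
          (hf1.sub (contDiff_const.mul hχ1)) ((hf k).hcs.sub hχs.mul_left) hδ
        have h2 := En_sub_le α hf1 (hf k).hcs hχ1 hχs c hθ
        have h3 := (hf k).dir
        have h4 := En_chi_le hα hε
        have e1 : ∫ x, Q x * (f k x - c * chi ε x) ^ 2 = ∫ x, (f k x - c * chi ε x) ^ 2 * (lam * w x ^ (α - 1) *
            ((w x - w0) ^ 2 / ((w x - w0) ^ 2 + δ ^ 2)) -
            (4 * κ * (2 - κ) * (w x ^ α * (w x - 1))) * (δ ^ 2 / ((w x - w0) ^ 2 + δ ^ 2) ^ 2)) := by
          congr 1; ext x; rw [mul_comm]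
        rw [e1]
        refine h1.trans (h2.trans ?_)
        have h5 : (1 + θ) * En α (f k) ≤ (1 + θ) * (D - 2 * α * Ms α (f k)) :=
          mul_le_mul_of_nonneg_left (by linarith) (by positivity)
        have h6 : (1 + 1 / θ) * (c ^ 2 * En α (chi ε : V n → ℝ)) ≤ (1 + 1 / θ) * (c ^ 2 * (4 * K0 ^ 2 * ε ^ 2 * J0)) := by
          apply mul_le_mul_of_nonneg_left _ (by positivity)
          exact mul_le_mul_of_nonneg_left h4 (sq_nonneg c)
        linarith
      have h7 := le_of_tendsto_of_tendsto' lim1 lim2 hle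
      refine le_trans (le_of_eq ?_) h7
      congr 1; ext x; rw [mul_comm]
    -- δ → 0
    have Lδ := lim_delta (F := fun x => g x - c * chi ε x) (z := fun x => w x - w0)
      (a := fun x => lam * w x ^ (α - 1)) (b := fun x => 4 * κ * (2 - κ) * (w x ^ α * (w x - 1)))
      hFc hFs (w_cont.sub continuous_const) (continuous_const.mul (w_rpow_cont _))
      (continuous_const.mul ((w_rpow_cont _).mul (w_cont.sub continuous_const))) hFz
    have h8 : ∫ x, lam * w x ^ (α - 1) * (g x - c * chi ε x) ^ 2 ≤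
        (1 + θ) * L + (1 + 1 / θ) * (c ^ 2 * (4 * K0 ^ 2 * ε ^ 2 * J0)) := by
      refine le_of_tendsto Lδ ?_
      filter_upwards [self_mem_nhdsWithin] with δ hδ'
      exact hδ δ hδ'
    rw [← integral_const_mul]
    refine le_trans (le_of_eq ?_) h8
    congr 1; ext x; ring
  -- ε → 0
  have main2 : ∀ θ : ℝ, 0 < θ → lam * Ms α g ≤ (1 + θ) * L := by
    intro θ hθ
    have L1 : Tendsto (fun ε : ℝ => ∫ x, w x ^ (α - 1) * (g x - c * chi ε x) ^ 2) (𝓝[>] 0)
        (𝓝 (∫ x, w x ^ (α - 1) * (g x - c) ^ 2)) := by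
      refine tendsto_integral_filter_of_dominated_convergence
        (fun x => w x ^ (α - 1) * (B + |c|) ^ 2) ?_ ?_ (hint.mul_const _) ?_
      · filter_upwards with ε
        apply Continuous.aestronglyMeasurable
        exact (w_rpow_cont _).mul ((hgl.continuous.sub (continuous_const.mul (chi_contDiff ε).continuous)).pow 2)
      · filter_upwards with ε
        filter_upwards with x
        have h3 := w_rpow_pos (α - 1) x
        rw [Real.norm_of_nonneg (by positivity)]
        apply mul_le_mul_of_nonneg_left _ h3.le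
        rw [← sq_abs (g x - c * chi ε x)]
        refine pow_le_pow_left₀ (abs_nonneg _) ?_ 2
        refine (abs_sub _ _).trans ?_
        rw [abs_mul, abs_of_nonneg (chi_nonneg ε x)]
        have h2 := chi_le_one ε x
        have h4 : |c| * chi ε x ≤ |c| * 1 := mul_le_mul_of_nonneg_left h2 (abs_nonneg c)
        have := hgB x
        linarith
      · filter_upwards with x
        have h1 := chi_tendsto (n := n) x
        have h2 := ((tendsto_const_nhds (x := g x)).sub (h1.const_mul c)).pow 2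
        have h3 := h2.const_mul (w x ^ (α - 1))
        simpa using h3
    have L2 : Tendsto (fun ε : ℝ => (1 + θ) * L + (1 + 1 / θ) * (c ^ 2 * (4 * K0 ^ 2 * ε ^ 2 * J0))) (𝓝[>] 0)
        (𝓝 ((1 + θ) * L + (1 + 1 / θ) * (c ^ 2 * (4 * K0 ^ 2 * 0 ^ 2 * J0)))) := by
      apply tendsto_nhdsWithin_of_tendsto_nhds
      apply Continuous.tendsto
      fun_prop
    have hev : ∀ᶠ ε : ℝ in 𝓝[>] 0, lam * ∫ x, w x ^ (α - 1) * (g x - c * chi ε x) ^ 2 ≤
        (1 + θ) * L + (1 + 1 / θ) * (c ^ 2 * (4 * K0 ^ 2 * ε ^ 2 * J0)) := by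
      filter_upwards [Ioo_mem_nhdsGT (show (0:ℝ) < 1 / Real.log w0 by positivity)] with ε hε
      apply main θ hθ ε hε.1
      have := hε.2.le
      rwa [le_div_iff₀ hlog] at this
    have h1 := le_of_tendsto_of_tendsto (L1.const_mul lam) L2 hev
    have i1 : Integrable (fun x => w x ^ (α - 1) * g x ^ 2) := Ms_integrable α hgl.continuous hghcs
    have i2 : Integrable (fun x => w x ^ (α - 1) * g x) :=
      ((w_rpow_cont _).mul (hgl.continuous)).integrable_of_hasCompactSupport hghcs.mul_left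
    have e1 : ∫ x, w x ^ (α - 1) * (g x - c) ^ 2 = Ms α g + c ^ 2 * J0 := by
      have : ∀ x, w x ^ (α - 1) * (g x - c) ^ 2 =
          (w x ^ (α - 1) * g x ^ 2 - 2 * c * (w x ^ (α - 1) * g x)) + c ^ 2 * w x ^ (α - 1) := by
        intro x; ring
      simp_rw [this]
      have i12 : Integrable (fun x => w x ^ (α - 1) * g x ^ 2 - 2 * c * (w x ^ (α - 1) * g x)) :=
        i1.sub (i2.const_mul _)
      rw [integral_add i12 (hint.const_mul _), integral_sub i1 (i2.const_mul _),
        integral_const_mul, integral_const_mul, hmean]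
      unfold Ms
      ring
    rw [e1] at h1
    have hJ0nn : 0 ≤ J0 := integral_nonneg fun x => (w_rpow_pos _ x).le
    have h2 : lam * Ms α g ≤ lam * (Ms α g + c ^ 2 * J0) := by
      apply mul_le_mul_of_nonneg_left _ hlam
      have : 0 ≤ c ^ 2 * J0 := by positivity
      linarith
    refine h2.trans (h1.trans (le_of_eq ?_))
    ring
  have L3 : Tendsto (fun θ : ℝ => (1 + θ) * L) (𝓝[>] 0) (𝓝 ((1 + 0) * L)) := by
    apply tendsto_nhdsWithin_of_tendsto_nhds
    apply Continuous.tendsto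
    fun_prop
  have hev3 : ∀ᶠ θ : ℝ in 𝓝[>] 0, lam * Ms α g ≤ (1 + θ) * L := by
    filter_upwards [self_mem_nhdsWithin] with θ hθ
    exact main2 θ hθ
  have h9 : lam * Ms α g ≤ (1 + 0) * L := ge_of_tendsto L3 hev3
  rw [add_zero, one_mul] at h9
  exact h9

/-- The lower bound for `α < α^*`. -/
lemma lower_neg {α κ w0 lam : ℝ} (hn : 0 < n) (hα : α < -((n : ℝ) - 2) / 2) (hw0 : 1 < w0)
    (hC : Cond n α κ w0 lam) (hlam : 0 ≤ lam) (hlam2 : lam ≤ -2 * α)
    {u : V n → ℝ} (hu : ContDiff ℝ ∞ u) (hs : HasCompactSupport u)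
    (h0 : ∫ x, w x ^ (α - 1) * u x = 0) : lam * Ms α u ≤ En α u := by
  obtain ⟨K, hK⟩ := hu.lipschitzWith_of_hasCompactSupport hs (by simp)
  obtain ⟨R0, hR0⟩ := hs.isCompact.isBounded.subset_closedBall (0 : V n)
  set R := max R0 0 with hR
  have hsupp : ∀ x, R < ‖x‖ → u x = 0 := by
    intro x hx
    apply image_eq_zero_of_notMem_tsupport
    intro hmem
    have := hR0 hmem
    rw [mem_closedBall_zero_iff] at this
    have := le_max_left R0 0
    linarith
  have hcls : Cls α K R (En α u + 2 * α * Ms α u) K.2 u := ⟨hu, hsupp, hK, h0, le_rfl⟩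
  obtain ⟨f, g, hf, hg, hMs, hrad⟩ := exists_radial hn (le_max_right _ _) hcls
  have h1 := radial_limit hn (le_max_right _ _) hα hw0 hC hlam f g hf hg hrad
  have h2 : (lam + 2 * α) * Ms α u ≤ (lam + 2 * α) * Ms α g :=
    mul_le_mul_of_nonpos_left hMs (by linarith)
  nlinarith

end Pool.Agent.H779R2.Hardy
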