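import Pool.Agent.H779R2.Hardy.Refl

set_option autoImplicit false

open MeasureTheory Filter Topology Set
open scoped ContDiff NNReal

namespace Pool.Agent.H779R2.Hardy

variable {n : ℕ}

/-- The algebraic condition on the parameters. -/
def Cond (n : ℕ) (α κ w0 lam : ℝ) : Prop :=
  ∀ t : ℝ, 1 ≤ t → lam * (t - w0) ^ 2 ≤
    -2 * κ * (n * t + 2 * α * (t - 1)) * (t - w0) + 4 * κ * (1 - κ) * t * (t - 1)

/-- regularised radial T-method -/
lemma radial_T (α κ w0 lam : ℝ) (hC : Cond n α κ w0 lam) {f : V n → ℝ} (hf : ContDiff ℝ 1 f)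
    (hs : HasCompactSupport f) {δ : ℝ} (hδ : 0 < δ) :
    ∫ x, f x ^ 2 * (lam * w x ^ (α - 1) * ((w x - w0) ^ 2 / ((w x - w0) ^ 2 + δ ^ 2)) -
      (4 * κ * (2 - κ) * (w x ^ α * (w x - 1))) * (δ ^ 2 / ((w x - w0) ^ 2 + δ ^ 2) ^ 2)) ≤ En α f := by
  have hzcd : ContDiff ℝ 1 (fun x : V n => w x - w0) := w_contDiff.sub contDiff_const
  have hD : ∀ x : V n, 0 < (w x - w0) ^ 2 + δ ^ 2 := fun x => by positivity
  have hρ : ContDiff ℝ 1 (fun x : V n => w x ^ α * (-2 * κ * ((w x - w0) / ((w x - w0) ^ 2 + δ ^ 2)))) := by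
    refine (w_rpow_contDiff α).mul (contDiff_const.mul (hzcd.div ((hzcd.pow 2).add contDiff_const) ?_))
    intro x; exact (hD x).ne'
  have hf2 : HasCompactSupport (fun x => f x ^ 2) := hs.comp_left (g := fun t : ℝ => t ^ 2) (by simp)
  refine le_trans ?_ (T_radial α hf hs hρ)
  refine integral_mono ?_ ?_ ?_
  · apply Continuous.integrable_of_hasCompactSupport
    · refine (hf.continuous.pow 2).mul (((continuous_const.mul (w_rpow_cont _)).mul
        ((hzcd.continuous.pow 2).div ((hzcd.continuous.pow 2).add continuous_const) fun x => (hD x).ne')).sub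
        ((continuous_const.mul ((w_rpow_cont _).mul (w_cont.sub continuous_const))).mul
        (continuous_const.div (((hzcd.continuous.pow 2).add continuous_const).pow 2) fun x => (pow_pos (hD x) 2).ne')))
    · exact hf2.mul_right
  · apply Continuous.integrable_of_hasCompactSupport
    · refine (hf.continuous.pow 2).mul ?_
      refine ((continuous_const.mul hρ.continuous).add ((hρ.continuous_fderiv one_ne_zero).clm_apply continuous_id)).sub ?_
      refine (((w_rpow_cont α).inv₀ (fun x => (w_rpow_pos α x).ne')).mul (hρ.continuous.pow 2)).mul ?_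
      fun_prop
    · exact hf2.mul_right
  · intro x
    simp only
    apply mul_le_mul_of_nonneg_left _ (sq_nonneg (f x))
    set z : ℝ := w x - w0 with hz
    have hr : HasDerivAt (fun t : ℝ => (t - w0) / ((t - w0) ^ 2 + δ ^ 2))
        ((1 * (z ^ 2 + δ ^ 2) - z * (2 * z)) / (z ^ 2 + δ ^ 2) ^ 2) (w x) := by
      have h5 := ((hasDerivAt_id (w x)).sub_const w0).div
        ((((hasDerivAt_id (w x)).sub_const w0).pow 2).add_const (δ ^ 2)) (hD x).ne'
      refine h5.congr_deriv ?_
      simp [hz]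
    have h1 := ((w_rpow_contDiff (n := n) (m := 1) α).differentiable one_ne_zero x).hasFDerivAt
    have h0 := ((w_contDiff (n := n) (m := 1)).differentiable one_ne_zero x).hasFDerivAt
    have h2 := (h1.mul ((hr.comp_hasFDerivAt x h0).const_mul (-2 * κ)))
    have h3 : fderiv ℝ (fun x : V n => w x ^ α * (-2 * κ * ((w x - w0) / ((w x - w0) ^ 2 + δ ^ 2)))) x = _ := h2.fderiv
    rw [h3]
    simp only [_root_.add_apply, _root_.smul_apply, smul_eq_mul, w_rpow_fderiv, w_fderiv,
      Function.comp_apply, real_inner_self_eq_norm_sq]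
    rw [← hz, normsq_eq]
    set u : ℝ := w x with hu
    have hu1 : 1 ≤ u := one_le_w x
    have hupos : 0 < u := w_pos x
    have e1 : u ^ α = u ^ (α - 1) * u := rpow_split x α
    have hp : 0 < u ^ (α - 1) := w_rpow_pos (α - 1) x
    have hDz : 0 < z ^ 2 + δ ^ 2 := by positivity
    rw [e1]
    have hcond := hC u hu1
    rw [← hz] at hcond
    -- the two sides divided by `u^(α-1)`
    have key : lam * z ^ 2 * (z ^ 2 + δ ^ 2) - 4 * κ * (2 - κ) * (u * (u - 1)) * δ ^ 2 ≤
        -2 * κ * ((n * u * z + 2 * α * (u - 1) * z) * (z ^ 2 + δ ^ 2) + 2 * u * (u - 1) * (δ ^ 2 - z ^ 2)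
          + 2 * κ * u * (u - 1) * z ^ 2) := by
      have := mul_le_mul_of_nonneg_right hcond hDz.le
      nlinarith
    have key2 : u ^ (α - 1) * ((lam * z ^ 2 * (z ^ 2 + δ ^ 2) - 4 * κ * (2 - κ) * (u * (u - 1)) * δ ^ 2) /
        (z ^ 2 + δ ^ 2) ^ 2) ≤ u ^ (α - 1) * ((-2 * κ * ((n * u * z + 2 * α * (u - 1) * z) * (z ^ 2 + δ ^ 2) +
          2 * u * (u - 1) * (δ ^ 2 - z ^ 2) + 2 * κ * u * (u - 1) * z ^ 2)) / (z ^ 2 + δ ^ 2) ^ 2) := by
      apply mul_le_mul_of_nonneg_left _ hp.le
      exact div_le_div_of_nonneg_right key (by positivity)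
    refine (le_of_eq ?_).trans (key2.trans (le_of_eq ?_))
    · field_simp
    · field_simp
      ring

/-- convergence of integrals under bounded convergence on a ball -/
lemma tendsto_int_ball {h : ℕ → V n → ℝ} {g : V n → ℝ} {q : V n → ℝ} (hq : Continuous q)
    (hc : ∀ k, Continuous (h k)) (hl : ∀ x, Tendsto (fun k => h k x) atTop (𝓝 (g x)))
    (B R : ℝ) (hB : ∀ k x, |h k x| ≤ B) (hR : ∀ k x, R < ‖x‖ → h k x = 0) :
    Tendsto (fun k => ∫ x, q x * h k x) atTop (𝓝 (∫ x, q x * g x)) := by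
  have I : Integrable ((Metric.closedBall (0 : V n) R).indicator (fun x => |q x| * B)) := by
    apply IntegrableOn.integrable_indicator _ Metric.isClosed_closedBall.measurableSet
    exact (hq.abs.mul continuous_const).continuousOn.integrableOn_compact (isCompact_closedBall _ _)
  refine tendsto_integral_of_dominated_convergence _ ?_ I ?_ ?_
  · intro k
    exact (hq.mul (hc k)).aestronglyMeasurable
  · intro k
    filter_upwards with x
    by_cases hx : x ∈ Metric.closedBall (0 : V n) R
    · rw [indicator_of_mem hx, Real.norm_eq_abs, abs_mul]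
      exact mul_le_mul_of_nonneg_left (hB k x) (abs_nonneg _)
    · rw [indicator_of_notMem hx]
      rw [mem_closedBall_zero_iff, not_le] at hx
      rw [hR k x hx]; simp
  · filter_upwards with x
    exact (hl x).const_mul _

/-- the class of competitors -/
structure Cls (α K R D : ℝ) (hK : 0 ≤ K) (f : V n → ℝ) : Prop where
  cd : ContDiff ℝ ∞ f
  supp : ∀ x, R < ‖x‖ → f x = 0
  lip : LipschitzWith ⟨K, hK⟩ f
  mean : ∫ x, w x ^ (α - 1) * f x = 0
  dir : En α f + 2 * α * Ms α f ≤ D

lemma Cls.hcs {α K R D : ℝ} {hK : 0 ≤ K} {f : V n → ℝ} (h : Cls α K R D hK f) : HasCompactSupport f := by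
  refine HasCompactSupport.intro (isCompact_closedBall (0 : V n) R) ?_
  intro x hx
  rw [mem_closedBall_zero_iff, not_le] at hx
  exact h.supp x hx

lemma Cls.sP {α K R D : ℝ} {hK : 0 ≤ K} {f : V n → ℝ} (h : Cls α K R D hK f) {e : V n} (he : ‖e‖ = 1) :
    Cls α K R D hK (sP e f) := by
  refine ⟨sP_cd e h.cd, ?_, ?_, ?_, ?_⟩
  · intro x hx
    unfold Hardy.sP
    rw [h.supp x hx, h.supp (sg e x) (by rwa [LinearIsometryEquiv.norm_map])]
    simp
  · apply LipschitzWith.of_dist_le_mul
    intro x y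
    have h1 := h.lip.dist_le_mul x y
    have h2 := h.lip.dist_le_mul (sg e x) (sg e y)
    rw [LinearIsometryEquiv.dist_map] at h2
    rw [Real.dist_eq] at h1 h2 ⊢
    unfold Hardy.sP
    have e1 : (f x + f (sg e x)) / 2 - (f y + f (sg e y)) / 2 = ((f x - f y) + (f (sg e x) - f (sg e y))) / 2 := by ring
    rw [e1, abs_div, abs_two]
    have h3 := abs_add_le (f x - f y) (f (sg e x) - f (sg e y))
    rw [div_le_iff₀ two_pos]
    linarith
  · have hi : Integrable (fun x => w x ^ (α - 1) * f x) :=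
      ((w_rpow_cont _).mul h.cd.continuous).integrable_of_hasCompactSupport h.hcs.mul_left
    have hi2 : Integrable (fun x => w x ^ (α - 1) * f (sg e x)) :=
      ((w_rpow_cont _).mul (h.cd.continuous.comp (sg e).continuous)).integrable_of_hasCompactSupport
        (hcs_sg e h.hcs).mul_left
    have e2 : ∫ x, w x ^ (α - 1) * f (sg e x) = 0 := by
      rw [← h.mean, ← int_sg e (fun x => w x ^ (α - 1) * f x)]
      congr 1; ext x; rw [w_sg]
    have e3 : ∀ x, w x ^ (α - 1) * Hardy.sP e f x = (w x ^ (α - 1) * f x + w x ^ (α - 1) * f (sg e x)) / 2 := by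
      intro x; unfold Hardy.sP; ring
    simp_rw [e3]
    rw [integral_div, integral_add hi hi2, h.mean, e2]; simp
  · have h1 := En_split α e (h.cd.of_le (by simp)) h.hcs
    have h2 := Ms_split α e h.cd.continuous h.hcs
    have h3 := odd_lower α he (v := sM e f) (sM_cd e (h.cd.of_le (by simp))) (hcs_sM e h.hcs) (by
      intro x; unfold sM; rw [sg_sg]; ring)
    have h4 := h.dir
    have h5 : 2 * α * Ms α f = 2 * α * (Ms α (Hardy.sP e f) + Ms α (sM e f)) := congrArg _ h2
    rw [mul_add] at h5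
    linarith

lemma Cls.bound {α K R D : ℝ} {hK : 0 ≤ K} {f : V n → ℝ} (h : Cls α K R D hK f) (hn : 0 < n) (hR : 0 ≤ R)
    (x : V n) : |f x| ≤ K * (2 * R + 1) := by
  by_cases hx : R < ‖x‖
  · rw [h.supp x hx, abs_zero]; positivity
  · push Not at hx
    set y : V n := (R + 1) • EuclideanSpace.single ⟨0, hn⟩ 1 with hy
    have hyn : ‖y‖ = R + 1 := by
      rw [hy, norm_smul, Real.norm_of_nonneg (by positivity)]; simp
    have h1 := h.lip.dist_le_mul x y
    rw [h.supp y (by rw [hyn]; linarith), Real.dist_eq, sub_zero] at h1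
    refine h1.trans ?_
    have h2 : dist x y ≤ 2 * R + 1 := by
      rw [dist_eq_norm]
      calc ‖x - y‖ ≤ ‖x‖ + ‖y‖ := norm_sub_le _ _
        _ ≤ R + (R + 1) := by rw [hyn]; linarith
        _ = _ := by ring
    exact mul_le_mul_of_nonneg_left h2 hK

/-- compactness of the class -/
lemma Cls.compact {α K R D : ℝ} {hK : 0 ≤ K} (hn : 0 < n) (hR : 0 ≤ R)
    (f : ℕ → V n → ℝ) (hf : ∀ k, Cls α K R D hK (f k)) :
    ∃ (g : V n → ℝ) (φ : ℕ → ℕ), StrictMono φ ∧ ∀ x, Tendsto (fun k => f (φ k) x) atTop (𝓝 (g x)) := by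
  classical
  let X := Metric.closedBall (0 : V n) R
  have : CompactSpace X := isCompact_iff_compactSpace.1 (isCompact_closedBall _ _)
  let F : ℕ → BoundedContinuousFunction X ℝ := fun k =>
    BoundedContinuousFunction.mkOfCompact ⟨fun x : X => f k x, (hf k).cd.continuous.comp continuous_subtype_val⟩
  let A : Set (BoundedContinuousFunction X ℝ) := range F
  have hA : IsCompact (closure A) := by
    refine BoundedContinuousFunction.arzela_ascoli (Metric.closedBall (0:ℝ) (K * (2 * R + 1)))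
      (isCompact_closedBall _ _) A ?_ ?_
    · rintro G x ⟨k, rfl⟩
      rw [mem_closedBall_zero_iff, Real.norm_eq_abs]
      exact (hf k).bound hn hR x
    · apply UniformEquicontinuous.equicontinuous
      apply LipschitzWith.uniformEquicontinuous _ ⟨K, hK⟩
      rintro ⟨G, k, rfl⟩
      apply LipschitzWith.of_dist_le_mul
      intro x y
      exact (hf k).lip.dist_le_mul x y
  obtain ⟨G, -, φ, hφ, hG⟩ := hA.tendsto_subseq (x := F) (fun k => subset_closure ⟨k, rfl⟩)
  refine ⟨fun x => if hx : x ∈ X then G ⟨x, hx⟩ else 0, φ, hφ, ?_⟩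
  intro x
  by_cases hx : x ∈ X
  · simp only [hx, dif_pos]
    have h1 : Tendsto (fun k => (F (φ k)) ⟨x, hx⟩) atTop (𝓝 (G ⟨x, hx⟩)) := by
      have := (continuous_eval_const (F := BoundedContinuousFunction X ℝ) (⟨x, hx⟩ : X)).tendsto G
      exact this.comp hG
    exact h1
  · simp only [hx, dif_neg, not_false_eq_true]
    refine tendsto_const_nhds.congr fun k => ?_
    have : R < ‖x‖ := by
      have : x ∉ Metric.closedBall (0 : V n) R := hx
      rwa [mem_closedBall_zero_iff, not_le] at this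
    exact ((hf (φ k)).supp x this).symm

lemma Ms_nonneg (α : ℝ) (f : V n → ℝ) : 0 ≤ Ms α f :=
  integral_nonneg fun x => mul_nonneg (w_rpow_pos _ x).le (sq_nonneg _)

lemma En_nonneg (α : ℝ) (f : V n → ℝ) : 0 ≤ En α f :=
  integral_nonneg fun x => mul_nonneg (w_rpow_pos _ x).le (sq_nonneg _)

lemma Ms_eq_zero (α : ℝ) {f : V n → ℝ} (hf : Continuous f) (hs : HasCompactSupport f) (h : Ms α f ≤ 0) :
    ∀ x, f x = 0 := by
  intro x
  by_contra hx
  have : 0 < Ms α f := by
    unfold Ms
    refine Continuous.integral_pos_of_hasCompactSupport_nonneg_nonzero (x := x)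
      ((w_rpow_cont _).mul (hf.pow 2)) ?_ ?_ ?_
    · exact (hs.comp_left (g := fun t : ℝ => t ^ 2) (by simp)).mul_left
    · intro y
      exact mul_nonneg (w_rpow_pos _ y).le (sq_nonneg _)
    · exact mul_ne_zero (w_rpow_pos _ x).ne' (pow_ne_zero 2 hx)
  linarith

/-- Existence of a radial limit. -/
lemma exists_radial {α K R D : ℝ} {hK : 0 ≤ K} (hn : 0 < n) (hR : 0 ≤ R) {u : V n → ℝ}
    (hu : Cls α K R D hK u) :
    ∃ (f : ℕ → V n → ℝ) (g : V n → ℝ), (∀ k, Cls α K R D hK (f k)) ∧
      (∀ x, Tendsto (fun k => f k x) atTop (𝓝 (g x))) ∧ Ms α g ≤ Ms α u ∧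
      (∀ x y, ‖x‖ = ‖y‖ → g x = g y) := by
  set S : Set ℝ := {m | ∃ f : V n → ℝ, Cls α K R D hK f ∧ Ms α f = m} with hS
  have hne : S.Nonempty := ⟨_, u, hu, rfl⟩
  have hbd : BddBelow S := ⟨0, by rintro m ⟨f, -, rfl⟩; exact Ms_nonneg α f⟩
  set m := sInf S with hm
  have hseq : ∀ k : ℕ, ∃ f : V n → ℝ, Cls α K R D hK f ∧ Ms α f < m + 1 / (k + 1) := by
    intro k
    obtain ⟨y, ⟨f, hf, rfl⟩, hy⟩ := exists_lt_of_csInf_lt hne (show sInf S < m + 1 / ((k:ℝ) + 1) by
      have : (0:ℝ) < 1 / ((k:ℝ) + 1) := by positivity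
      linarith)
    exact ⟨f, hf, hy⟩
  choose f0 hf0 hf0m using hseq
  obtain ⟨g, φ, hφ, hg⟩ := Cls.compact hn hR f0 hf0
  refine ⟨fun k => f0 (φ k), g, fun k => hf0 _, hg, ?_, ?_⟩
  · -- mass of the limit
    have hlim : Tendsto (fun k => Ms α (f0 (φ k))) atTop (𝓝 (Ms α g)) := by
      unfold Ms
      refine tendsto_int_ball (w_rpow_cont _) (fun k => (hf0 _).cd.continuous.pow 2)
        (fun x => (hg x).pow 2) ((K * (2 * R + 1)) ^ 2) R ?_ ?_
      · intro k x
        rw [abs_pow]
        exact pow_le_pow_left₀ (abs_nonneg _) ((hf0 _).bound hn hR x) 2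
      · intro k x hx
        rw [(hf0 _).supp x hx]; simp
    have hle : Ms α g ≤ m := by
      have h1 : Tendsto (fun k : ℕ => m + 1 / ((φ k : ℝ) + 1)) atTop (𝓝 (m + 0)) := by
        refine tendsto_const_nhds.add ?_
        exact (tendsto_one_div_add_atTop_nhds_zero_nat (𝕜 := ℝ)).comp hφ.tendsto_atTop
      rw [add_zero] at h1
      exact le_of_tendsto_of_tendsto' hlim h1 (fun k => (hf0m (φ k)).le)
    exact hle.trans (csInf_le hbd ⟨u, hu, rfl⟩)
  · -- invariance under reflections
    have hinv : ∀ e : V n, ‖e‖ = 1 → ∀ x, g (sg e x) = g x := by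
      intro e he
      have hgl : LipschitzWith ⟨K, hK⟩ g := by
        apply LipschitzWith.of_dist_le_mul
        intro x y
        have h1 : Tendsto (fun k => dist (f0 (φ k) x) (f0 (φ k) y)) atTop (𝓝 (dist (g x) (g y))) :=
          (hg x).dist (hg y)
        exact le_of_tendsto' h1 (fun k => (hf0 _).lip.dist_le_mul x y)
      have hgs : ∀ x, R < ‖x‖ → g x = 0 := by
        intro x hx
        refine tendsto_nhds_unique (hg x) (tendsto_const_nhds.congr fun k => ?_)
        exact ((hf0 _).supp x hx).symm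
      have hghcs : HasCompactSupport g := by
        refine HasCompactSupport.intro (isCompact_closedBall (0 : V n) R) ?_
        intro x hx
        rw [mem_closedBall_zero_iff, not_le] at hx
        exact hgs x hx
      have hMc : Continuous (sM e g) := by
        unfold sM; exact (hgl.continuous.sub (hgl.continuous.comp (sg e).continuous)).div_const 2
      have hlim : Tendsto (fun k => Ms α (sM e (f0 (φ k)))) atTop (𝓝 (Ms α (sM e g))) := by
        unfold Ms
        refine tendsto_int_ball (w_rpow_cont _) (fun k => (sM_cd e (hf0 _).cd).continuous.pow 2)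
          (fun x => Tendsto.pow ?_ 2) ((K * (2 * R + 1)) ^ 2) R ?_ ?_
        · unfold sM
          exact ((hg x).sub (hg _)).div_const 2
        · intro k x
          rw [abs_pow]
          refine pow_le_pow_left₀ (abs_nonneg _) ?_ 2
          unfold sM
          rw [abs_div, abs_two, div_le_iff₀ two_pos]
          have h1 := (hf0 (φ k)).bound hn hR x
          have h2 := (hf0 (φ k)).bound hn hR (sg e x)
          have h3 := abs_sub (f0 (φ k) x) (f0 (φ k) (sg e x))
          linarith
        · intro k x hx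
          unfold sM
          rw [(hf0 _).supp x hx, (hf0 _).supp (sg e x) (by rwa [LinearIsometryEquiv.norm_map])]; simp
      have hsmall : ∀ k, Ms α (sM e (f0 (φ k))) ≤ 1 / ((φ k : ℝ) + 1) := by
        intro k
        have h1 := Ms_split α e (hf0 (φ k)).cd.continuous (hf0 (φ k)).hcs
        have h2 : m ≤ Ms α (sP e (f0 (φ k))) := csInf_le hbd ⟨_, (hf0 (φ k)).sP he, rfl⟩
        have h3 := hf0m (φ k)
        linarith
      have h0 : Ms α (sM e g) ≤ 0 := by
        have h1 : Tendsto (fun k : ℕ => 1 / ((φ k : ℝ) + 1)) atTop (𝓝 0) :=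
          (tendsto_one_div_add_atTop_nhds_zero_nat (𝕜 := ℝ)).comp hφ.tendsto_atTop
        exact le_of_tendsto_of_tendsto' hlim h1 hsmall
      intro x
      have := Ms_eq_zero α hMc (hcs_sM e hghcs) h0 x
      unfold sM at this
      linarith
    intro x y hxy
    by_cases hne' : x = y
    · rw [hne']
    · have hd : ‖x - y‖ ≠ 0 := norm_ne_zero_iff.2 (sub_ne_zero.2 hne')
      set e : V n := (‖x - y‖)⁻¹ • (x - y) with he
      have he1 : ‖e‖ = 1 := by
        rw [he, norm_smul, norm_inv, norm_norm, inv_mul_cancel₀ hd]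
      have hs : sg e x = y := by
        rw [sg_apply e x he1, he, inner_smul_left]
        have h1 : ‖x - y‖ ^ 2 = 2 * inner ℝ (x - y) x := by
          rw [norm_sub_sq_real, inner_sub_left, real_inner_self_eq_norm_sq, real_inner_comm x y, ← hxy]
          ring
        have h2 : (2 * ((starRingEnd ℝ) (‖x - y‖)⁻¹ * inner ℝ (x - y) x)) * (‖x - y‖)⁻¹ = 1 := by
          have : (starRingEnd ℝ) (‖x - y‖)⁻¹ = (‖x - y‖)⁻¹ := rfl
          rw [this]
          have h3 : inner ℝ (x - y) x = ‖x - y‖ ^ 2 / 2 := by linarith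
          rw [h3]
          field_simp
        rw [smul_smul, h2, one_smul]
        abel
      rw [← hs]
      exact (hinv e he1 x).symm

end Pool.Agent.H779R2.Hardy
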