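import Pool.Agent.H779R2.Hardy.Upper

set_option autoImplicit false

open MeasureTheory Filter Topology Set
open scoped ContDiff NNReal

namespace Pool.Agent.H779R2.Hardy

variable {n : ℕ}

/-- reflection in the hyperplane orthogonal to `e` -/
noncomputable def sg (e : V n) : V n ≃ₗᵢ[ℝ] V n := Submodule.reflection (Submodule.span ℝ {e})ᗮ

lemma sg_apply (e x : V n) (he : ‖e‖ = 1) : sg e x = x - (2 * inner ℝ e x) • e := by
  unfold sg
  rw [Submodule.reflection_orthogonal_apply, Submodule.reflection_singleton_apply, he]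
  simp only [smul_smul, neg_sub]
  norm_num
  rw [two_smul, two_mul, add_smul]

lemma sg_sg (e x : V n) : sg e (sg e x) = x := Submodule.reflection_reflection _ x

lemma w_sg (e x : V n) : w (sg e x) = w x := by
  unfold w; rw [LinearIsometryEquiv.norm_map]

/-- the symmetrisation -/
noncomputable def sP (e : V n) (f : V n → ℝ) (x : V n) : ℝ := (f x + f (sg e x)) / 2

/-- the antisymmetrisation -/
noncomputable def sM (e : V n) (f : V n → ℝ) (x : V n) : ℝ := (f x - f (sg e x)) / 2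

lemma sg_cd {m : WithTop ℕ∞} (e : V n) : ContDiff ℝ m (sg e : V n → V n) := (sg e).contDiff

lemma sP_cd {m : WithTop ℕ∞} (e : V n) {f : V n → ℝ} (hf : ContDiff ℝ m f) : ContDiff ℝ m (sP e f) := by
  unfold sP
  exact (hf.add (hf.comp (sg_cd e))).div_const 2

lemma sM_cd {m : WithTop ℕ∞} (e : V n) {f : V n → ℝ} (hf : ContDiff ℝ m f) : ContDiff ℝ m (sM e f) := by
  unfold sM
  exact (hf.sub (hf.comp (sg_cd e))).div_const 2

lemma int_sg (e : V n) (g : V n → ℝ) : ∫ x, g (sg e x) = ∫ x, g x := by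
  have h := (sg e).measurePreserving
  exact h.integral_comp (sg e).toHomeomorph.measurableEmbedding g

lemma fderiv_sg (e : V n) {f : V n → ℝ} (hf : ContDiff ℝ 1 f) (x : V n) :
    fderiv ℝ (fun x => f (sg e x)) x = (fderiv ℝ f (sg e x)).comp ((sg e : V n ≃L[ℝ] V n) : V n →L[ℝ] V n) := by
  have h1 := ((hf.differentiable one_ne_zero) (sg e x)).hasFDerivAt
  have h2 := ((sg e : V n ≃L[ℝ] V n) : V n →L[ℝ] V n).hasFDerivAt (x := x)
  exact (h1.comp x h2).fderiv

lemma norm_fderiv_sg (e : V n) {f : V n → ℝ} (hf : ContDiff ℝ 1 f) (x : V n) :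
    ‖fderiv ℝ (fun x => f (sg e x)) x‖ = ‖fderiv ℝ f (sg e x)‖ := by
  rw [fderiv_sg e hf x]
  exact ContinuousLinearMap.opNorm_comp_linearIsometryEquiv _ (sg e)

lemma dual_par (a b : V n →L[ℝ] ℝ) : ‖a + b‖ ^ 2 + ‖a - b‖ ^ 2 = 2 * (‖a‖ ^ 2 + ‖b‖ ^ 2) := by
  have := parallelogram_law_with_norm ℝ ((InnerProductSpace.toDual ℝ (V n)).symm a)
    ((InnerProductSpace.toDual ℝ (V n)).symm b)
  rw [← map_add, ← map_sub] at this
  simpa only [LinearIsometryEquiv.norm_map] using this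

lemma hcs_sg (e : V n) {f : V n → ℝ} (hs : HasCompactSupport f) : HasCompactSupport (fun x => f (sg e x)) :=
  hs.comp_homeomorph (sg e).toHomeomorph

lemma hcs_sP (e : V n) {f : V n → ℝ} (hs : HasCompactSupport f) : HasCompactSupport (sP e f) := by
  have h1 := (hs.add (hcs_sg e hs))
  exact h1.comp_left (g := fun t : ℝ => t / 2) (by simp)

lemma hcs_sM (e : V n) {f : V n → ℝ} (hs : HasCompactSupport f) : HasCompactSupport (sM e f) := by
  have h1 := (hs.sub (hcs_sg e hs))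
  exact h1.comp_left (g := fun t : ℝ => t / 2) (by simp)

lemma En_split (α : ℝ) (e : V n) {f : V n → ℝ} (hf : ContDiff ℝ 1 f) (hs : HasCompactSupport f) :
    En α f = En α (sP e f) + En α (sM e f) := by
  have i1 := En_integrable α (sP_cd e hf) (hcs_sP e hs)
  have i2 := En_integrable α (sM_cd e hf) (hcs_sM e hs)
  have i3 := En_integrable α hf hs
  have hfs : ContDiff ℝ 1 (fun x => f (sg e x)) := hf.comp (sg_cd e)
  have i4 := En_integrable α hfs (hcs_sg e hs)
  have hinv : En α (fun x => f (sg e x)) = En α f := by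
    unfold En
    rw [← int_sg e (fun x => w x ^ α * ‖fderiv ℝ f x‖ ^ 2)]
    congr 1; ext x
    rw [norm_fderiv_sg e hf, w_sg]
  have key : En α (sP e f) + En α (sM e f) = (En α f + En α (fun x => f (sg e x))) / 2 := by
    unfold En
    rw [← integral_add i1 i2, ← integral_add i3 i4, ← integral_div]
    congr 1; ext x
    have hd1 := ((hf.differentiable one_ne_zero) x).hasFDerivAt
    have hd2 := ((hfs.differentiable one_ne_zero) x).hasFDerivAt
    have e1 : fderiv ℝ (sP e f) x = (2:ℝ)⁻¹ • (fderiv ℝ f x + fderiv ℝ (fun x => f (sg e x)) x) := by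
      have h3 := (hd1.add hd2).const_mul (2:ℝ)⁻¹
      have h4 : sP e f = fun x => (2:ℝ)⁻¹ * (f x + f (sg e x)) := by ext y; unfold sP; ring
      rw [h4]; exact h3.fderiv
    have e2 : fderiv ℝ (sM e f) x = (2:ℝ)⁻¹ • (fderiv ℝ f x - fderiv ℝ (fun x => f (sg e x)) x) := by
      have h3 := (hd1.sub hd2).const_mul (2:ℝ)⁻¹
      have h4 : sM e f = fun x => (2:ℝ)⁻¹ * (f x - f (sg e x)) := by ext y; unfold sM; ring
      rw [h4]; exact h3.fderiv
    rw [e1, e2, norm_smul, norm_smul, mul_pow, mul_pow]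
    have := dual_par (fderiv ℝ f x) (fderiv ℝ (fun x => f (sg e x)) x)
    have hn : ‖(2:ℝ)⁻¹‖ ^ 2 = 1 / 4 := by norm_num
    rw [hn]
    linear_combination (1 / 4) * w x ^ α * this
  rw [key, hinv]; ring

lemma Ms_split (α : ℝ) (e : V n) {f : V n → ℝ} (hf : Continuous f) (hs : HasCompactSupport f) :
    Ms α f = Ms α (sP e f) + Ms α (sM e f) := by
  have hfs : Continuous (fun x => f (sg e x)) := hf.comp (sg e).continuous
  have c1 : Continuous (sP e f) := by unfold sP; exact (hf.add hfs).div_const 2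
  have c2 : Continuous (sM e f) := by unfold sM; exact (hf.sub hfs).div_const 2
  have i1 := Ms_integrable α c1 (hcs_sP e hs)
  have i2 := Ms_integrable α c2 (hcs_sM e hs)
  have i3 := Ms_integrable α hf hs
  have i4 := Ms_integrable α hfs (hcs_sg e hs)
  have hinv : Ms α (fun x => f (sg e x)) = Ms α f := by
    unfold Ms
    rw [← int_sg e (fun x => w x ^ (α - 1) * f x ^ 2)]
    congr 1; ext x
    rw [w_sg]
  have key : Ms α (sP e f) + Ms α (sM e f) = (Ms α f + Ms α (fun x => f (sg e x))) / 2 := by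
    unfold Ms
    rw [← integral_add i1 i2, ← integral_add i3 i4, ← integral_div]
    congr 1; ext x
    unfold sP sM
    ring
  rw [key, hinv]; ring

/-- limit `δ → 0` of the regularised T-method. -/
lemma lim_delta {F z a b : V n → ℝ} (hF : Continuous F) (hs : HasCompactSupport F)
    (hz : Continuous z) (ha : Continuous a) (hb : Continuous b) {K : ℝ}
    (hK : ∀ x, |F x| ≤ K * |z x|) :
    Tendsto (fun δ : ℝ => ∫ x, F x ^ 2 * (a x * (z x ^ 2 / (z x ^ 2 + δ ^ 2)) -
      b x * (δ ^ 2 / (z x ^ 2 + δ ^ 2) ^ 2))) (𝓝[>] 0) (𝓝 (∫ x, a x * F x ^ 2)) := by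
  have hF2 : HasCompactSupport (fun x => F x ^ 2) := hs.comp_left (g := fun t : ℝ => t ^ 2) (by simp)
  have I1 : Integrable (fun x => |a x| * F x ^ 2) :=
    (ha.abs.mul (hF.pow 2)).integrable_of_hasCompactSupport hF2.mul_left
  have I2 : Integrable ((tsupport F).indicator (fun x => |b x| * (K ^ 2 / 4))) := by
    apply IntegrableOn.integrable_indicator _ (isClosed_tsupport F).measurableSet
    exact (hb.abs.mul continuous_const).continuousOn.integrableOn_compact hs
  refine tendsto_integral_filter_of_dominated_convergence _ ?_ ?_ (I1.add I2) ?_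
  · filter_upwards [self_mem_nhdsWithin] with δ hδ
    have hδ : 0 < δ := hδ
    apply Continuous.aestronglyMeasurable
    refine (hF.pow 2).mul ((ha.mul ((hz.pow 2).div ((hz.pow 2).add continuous_const) ?_)).sub
      (hb.mul (continuous_const.div (((hz.pow 2).add continuous_const).pow 2) ?_)))
    · intro x
      have : 0 < z x ^ 2 + δ ^ 2 := by positivity
      exact this.ne'
    · intro x
      have : 0 < z x ^ 2 + δ ^ 2 := by positivity
      exact (pow_pos this 2).ne'
  · filter_upwards [self_mem_nhdsWithin] with δ hδ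
    have hδ : 0 < δ := hδ
    filter_upwards with x
    have hD : 0 < z x ^ 2 + δ ^ 2 := by positivity
    by_cases hx : x ∈ tsupport F
    · simp only [Pi.add_apply, indicator_of_mem hx]
      have e1 : z x ^ 2 / (z x ^ 2 + δ ^ 2) ≤ 1 := by
        rw [div_le_one hD]; nlinarith [sq_nonneg δ]
      have e1' : 0 ≤ z x ^ 2 / (z x ^ 2 + δ ^ 2) := by positivity
      have e2 : F x ^ 2 * (δ ^ 2 / (z x ^ 2 + δ ^ 2) ^ 2) ≤ K ^ 2 / 4 := by
        have h1 : F x ^ 2 ≤ K ^ 2 * z x ^ 2 := by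
          rw [← sq_abs (F x), ← sq_abs (z x), ← mul_pow]
          exact pow_le_pow_left₀ (abs_nonneg _) (hK x) 2
        rw [← mul_div_assoc, div_le_iff₀ (by positivity)]
        have h2 : F x ^ 2 * δ ^ 2 ≤ K ^ 2 * z x ^ 2 * δ ^ 2 := by
          apply mul_le_mul_of_nonneg_right h1; positivity
        have h3 : 0 ≤ K ^ 2 * (z x ^ 2 - δ ^ 2) ^ 2 := by positivity
        nlinarith
      have e2' : 0 ≤ F x ^ 2 * (δ ^ 2 / (z x ^ 2 + δ ^ 2) ^ 2) := by positivity
      rw [Real.norm_eq_abs]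
      have : F x ^ 2 * (a x * (z x ^ 2 / (z x ^ 2 + δ ^ 2)) - b x * (δ ^ 2 / (z x ^ 2 + δ ^ 2) ^ 2)) =
          (F x ^ 2 * (z x ^ 2 / (z x ^ 2 + δ ^ 2))) * a x - (F x ^ 2 * (δ ^ 2 / (z x ^ 2 + δ ^ 2) ^ 2)) * b x := by ring
      rw [this]
      refine (abs_sub _ _).trans ?_
      rw [abs_mul (F x ^ 2 * (z x ^ 2 / (z x ^ 2 + δ ^ 2))) (a x),
        abs_mul (F x ^ 2 * (δ ^ 2 / (z x ^ 2 + δ ^ 2) ^ 2)) (b x),
        abs_of_nonneg e2', abs_of_nonneg (mul_nonneg (sq_nonneg (F x)) e1')]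
      have f1 : F x ^ 2 * (z x ^ 2 / (z x ^ 2 + δ ^ 2)) * |a x| ≤ |a x| * F x ^ 2 := by
        have := mul_le_mul_of_nonneg_left e1 (mul_nonneg (sq_nonneg (F x)) (abs_nonneg (a x)))
        nlinarith
      have f2 : F x ^ 2 * (δ ^ 2 / (z x ^ 2 + δ ^ 2) ^ 2) * |b x| ≤ |b x| * (K ^ 2 / 4) := by
        nlinarith [abs_nonneg (b x)]
      linarith
    · have h0 : F x = 0 := image_eq_zero_of_notMem_tsupport hx
      simp only [Pi.add_apply, indicator_of_notMem hx, h0]
      simp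
  · filter_upwards with x
    by_cases hz0 : z x = 0
    · have h0 : F x = 0 := by
        have := hK x
        rw [hz0, abs_zero, mul_zero] at this
        exact abs_eq_zero.1 (le_antisymm this (abs_nonneg _))
      simp [h0]
    · have hz2 : z x ^ 2 ≠ 0 := pow_ne_zero 2 hz0
      have h1 : Tendsto (fun δ : ℝ => F x ^ 2 * (a x * (z x ^ 2 / (z x ^ 2 + δ ^ 2)) -
          b x * (δ ^ 2 / (z x ^ 2 + δ ^ 2) ^ 2))) (𝓝 0)
          (𝓝 (F x ^ 2 * (a x * (z x ^ 2 / (z x ^ 2 + 0 ^ 2)) - b x * (0 ^ 2 / (z x ^ 2 + 0 ^ 2) ^ 2)))) := by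
        apply ContinuousAt.tendsto
        have hd : z x ^ 2 + (0:ℝ) ^ 2 ≠ 0 := by simpa using hz2
        have hd2 : (z x ^ 2 + (0:ℝ) ^ 2) ^ 2 ≠ 0 := pow_ne_zero 2 hd
        fun_prop (disch := assumption)
      have h2 : F x ^ 2 * (a x * (z x ^ 2 / (z x ^ 2 + 0 ^ 2)) - b x * (0 ^ 2 / (z x ^ 2 + 0 ^ 2) ^ 2)) =
          a x * F x ^ 2 := by
        field_simp
        ring
      rw [h2] at h1
      exact tendsto_nhdsWithin_of_tendsto_nhds h1

/-- odd functions: `En ≥ -2α Ms`. -/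
lemma odd_lower (α : ℝ) {e : V n} (he : ‖e‖ = 1) {v : V n → ℝ} (hv : ContDiff ℝ 1 v)
    (hs : HasCompactSupport v) (hodd : ∀ x, v (sg e x) = - v x) : -2 * α * Ms α v ≤ En α v := by
  obtain ⟨K, hK⟩ := hv.lipschitzWith_of_hasCompactSupport hs one_ne_zero
  have hb : ∀ x, |v x| ≤ K * |inner ℝ e x| := by
    intro x
    have h1 := hK.dist_le_mul x (sg e x)
    rw [hodd, Real.dist_eq, dist_eq_norm, sg_apply e x he] at h1
    have h2 : ‖x - (x - (2 * inner ℝ e x) • e)‖ = 2 * |inner ℝ e x| := by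
      rw [sub_sub_cancel, norm_smul, he, mul_one, Real.norm_eq_abs, abs_mul, abs_two]
    rw [h2] at h1
    have h3 : |v x - -v x| = 2 * |v x| := by
      rw [sub_neg_eq_add, ← two_mul, abs_mul, abs_two]
    rw [h3] at h1
    linarith
  have hzc : Continuous (fun x : V n => inner ℝ e x) := by fun_prop
  have L := lim_delta (F := v) (z := fun x => inner ℝ e x) (a := fun x => -2 * α * w x ^ (α - 1))
    (b := fun x => w x ^ α) hv.continuous hs hzc (continuous_const.mul (w_rpow_cont _)) (w_rpow_cont _) hb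
  have hlim : ∫ x, (-2 * α * w x ^ (α - 1)) * v x ^ 2 = -2 * α * Ms α v := by
    unfold Ms
    rw [← integral_const_mul]
    congr 1; ext x; ring
  rw [← hlim]
  refine le_of_tendsto L ?_
  filter_upwards [self_mem_nhdsWithin] with δ hδ
  have hδ : 0 < δ := hδ
  have hzcd : ContDiff ℝ 1 (fun x : V n => inner ℝ e x) := contDiff_const.inner ℝ contDiff_id
  have hρ : ContDiff ℝ 1 (fun x : V n => -(w x ^ α * (inner ℝ e x / (inner ℝ e x ^ 2 + δ ^ 2)))) := by
    refine ((w_rpow_contDiff α).mul (hzcd.div ((hzcd.pow 2).add contDiff_const) ?_)).neg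
    intro x; positivity
  have hT := T_dir α hv hs hρ e
  refine le_trans (le_of_eq ?_) hT
  congr 1; ext x
  congr 1
  have h1 := ((w_rpow_contDiff (n := n) (m := 1) α).differentiable one_ne_zero x).hasFDerivAt
  have h0 : HasFDerivAt (fun y : V n => inner ℝ e y) (innerSL ℝ e : V n →L[ℝ] ℝ) x :=
    (innerSL ℝ e : V n →L[ℝ] ℝ).hasFDerivAt (x := x)
  set s : ℝ := inner ℝ e x with hs0
  have hD : s ^ 2 + δ ^ 2 ≠ 0 := by positivity
  have hr : HasDerivAt (fun t : ℝ => t / (t ^ 2 + δ ^ 2))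
      ((1 * (s ^ 2 + δ ^ 2) - s * (2 * s)) / (s ^ 2 + δ ^ 2) ^ 2) s := by
    have h5 := (hasDerivAt_id s).div (((hasDerivAt_id s).pow 2).add_const (δ ^ 2)) hD
    refine h5.congr_deriv ?_
    simp
  have h2 := (h1.mul (hr.comp_hasFDerivAt x h0)).neg
  have h3 : fderiv ℝ (fun x : V n => -(w x ^ α * (inner ℝ e x / (inner ℝ e x ^ 2 + δ ^ 2)))) x = _ := h2.fderiv
  rw [h3]
  have hee : inner ℝ e e = (1 : ℝ) := by rw [real_inner_self_eq_norm_sq, he]; norm_num
  simp only [_root_.neg_apply, _root_.add_apply, _root_.smul_apply, smul_eq_mul, w_rpow_fderiv,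
    innerSL_apply_apply, he, hee, Function.comp_apply]
  rw [real_inner_comm e x, ← hs0]
  have hw := w_rpow_pos α x
  have hw1 := w_rpow_pos (α - 1) x
  field_simp
  ring

end Pool.Agent.H779R2.Hardy
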