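import Pool.Agent.H779R2.Hardy.Cutoff

set_option autoImplicit false

open MeasureTheory Filter Topology Set
open scoped ContDiff

namespace Pool.Agent.H779R2.Hardy

variable {n : ℕ}

lemma int_w_pos {s : ℝ} (hs : s < -(n : ℝ) / 2) : 0 < ∫ x : V n, w x ^ s := by
  rw [integral_pos_iff_support_of_nonneg (fun x => (w_rpow_pos s x).le) (w_integrable hs)]
  have : Function.support (fun x : V n => w x ^ s) = univ := by
    ext x; simp [(w_rpow_pos s x).ne']
  rw [this]
  exact isOpen_univ.measure_pos volume univ_nonempty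

lemma rpow_split (x : V n) (t : ℝ) : w x ^ t = w x ^ (t - 1) * w x := by
  rw [← Real.rpow_add_one (w_pos x).ne']; congr 1; ring

lemma normsq_eq (x : V n) : ‖x‖ ^ 2 = w x - 1 := by unfold w; ring

/-- `n ∫ w^t + 2 t ∫ w^(t-1) |x|^2 = 0`. -/
lemma rel_radial {t : ℝ} (ht : t < -(n : ℝ) / 2) :
    ∫ x : V n, ((n : ℝ) * w x ^ t + 2 * t * w x ^ (t - 1) * ‖x‖ ^ 2) = 0 := by
  have L : Tendsto (fun ε : ℝ => ∫ x : V n, ((n : ℝ) * (w x ^ t * chi ε x) +
      fderiv ℝ (fun y => w y ^ t * chi ε y) x x)) (𝓝[>] 0)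
      (𝓝 (∫ x : V n, ((n : ℝ) * w x ^ t + 2 * t * w x ^ (t - 1) * ‖x‖ ^ 2))) := by
    have hder : ∀ ε (x : V n), fderiv ℝ (fun y => w y ^ t * chi ε y) x x =
        2 * t * w x ^ (t - 1) * ‖x‖ ^ 2 * chi ε x + w x ^ t * fderiv ℝ (chi ε) x x := by
      intro ε x
      have h1 := ((w_rpow_contDiff (n := n) (m := 1) t).differentiable one_ne_zero x).hasFDerivAt
      have h2 := ((chi_contDiff (n := n) ε).differentiable (by simp) x).hasFDerivAt
      have h3 := h1.mul h2
      have h4 : fderiv ℝ (fun y => w y ^ t * chi ε y) x = _ := h3.fderiv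
      rw [h4]
      simp only [_root_.add_apply, _root_.smul_apply, smul_eq_mul, w_rpow_fderiv,
        real_inner_self_eq_norm_sq]
      ring
    refine tendsto_integral_filter_of_dominated_convergence
      (fun x => ((n : ℝ) + 2 * |t| + 2 * K0) * w x ^ t) ?_ ?_ ((w_integrable ht).const_mul _) ?_
    · filter_upwards with ε
      apply Continuous.aestronglyMeasurable
      have hh : ContDiff ℝ 1 (fun y : V n => w y ^ t * chi ε y) :=
        (w_rpow_contDiff t).mul ((chi_contDiff ε).of_le (by simp))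
      exact (continuous_const.mul hh.continuous).add
        ((hh.continuous_fderiv one_ne_zero).clm_apply continuous_id)
    · filter_upwards [Ioo_mem_nhdsGT (show (0:ℝ) < 1 by norm_num)] with ε hε
      filter_upwards with x
      rw [hder]
      have h1 := chi_nonneg ε x
      have h2 := chi_le_one ε x
      have h3 := w_rpow_pos t x
      have h3' := w_rpow_pos (t - 1) x
      have h4 := w_pos x
      have h5 : ‖x‖ ^ 2 ≤ w x := by rw [normsq_eq]; linarith
      have h6 := chi_fderiv_dir ε x x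
      have hK := K0_nonneg
      have e1 : |fderiv ℝ (chi ε) x x| ≤ 2 * K0 := by
        refine h6.trans ?_
        rw [abs_of_pos hε.1]
        have : ‖x‖ * ‖x‖ / w x ≤ 1 := by rw [div_le_one h4]; nlinarith
        have h0 : 0 ≤ ‖x‖ * ‖x‖ / w x := by positivity
        calc 2 * K0 * ε * (‖x‖ * ‖x‖ / w x) ≤ 2 * K0 * 1 * 1 := by
              have := hε.2
              have := hε.1
              gcongr
          _ = 2 * K0 := by ring
      have e2 : |2 * t * w x ^ (t - 1) * ‖x‖ ^ 2 * chi ε x| ≤ 2 * |t| * w x ^ t := by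
        rw [abs_mul, abs_mul, abs_mul, abs_mul, abs_of_nonneg h1, abs_of_pos h3',
          abs_of_nonneg (sq_nonneg ‖x‖), abs_of_pos (two_pos : (0:ℝ) < 2), rpow_split x t]
        calc 2 * |t| * w x ^ (t - 1) * ‖x‖ ^ 2 * chi ε x ≤ 2 * |t| * w x ^ (t - 1) * w x * 1 := by gcongr
          _ = _ := by ring
      have e3 : |(n : ℝ) * (w x ^ t * chi ε x)| ≤ n * w x ^ t := by
        rw [abs_mul, abs_mul, abs_of_nonneg h1, abs_of_pos h3, abs_of_nonneg (Nat.cast_nonneg n : (0:ℝ) ≤ n)]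
        calc (n : ℝ) * (w x ^ t * chi ε x) ≤ n * (w x ^ t * 1) := by gcongr
          _ = _ := by ring
      have e4 : |w x ^ t * fderiv ℝ (chi ε) x x| ≤ 2 * K0 * w x ^ t := by
        rw [abs_mul, abs_of_pos h3]
        nlinarith
      rw [Real.norm_eq_abs]
      calc |(n : ℝ) * (w x ^ t * chi ε x) + (2 * t * w x ^ (t - 1) * ‖x‖ ^ 2 * chi ε x + w x ^ t * fderiv ℝ (chi ε) x x)|
          ≤ |(n : ℝ) * (w x ^ t * chi ε x)| + (|2 * t * w x ^ (t - 1) * ‖x‖ ^ 2 * chi ε x| + |w x ^ t * fderiv ℝ (chi ε) x x|) :=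
            (abs_add_le _ _).trans (add_le_add_right (abs_add_le _ _) _)
        _ ≤ n * w x ^ t + (2 * |t| * w x ^ t + 2 * K0 * w x ^ t) := by gcongr
        _ = _ := by ring
    · filter_upwards with x
      simp only [hder]
      have c1 := chi_tendsto (n := n) x
      have c2 : Tendsto (fun ε : ℝ => fderiv ℝ (chi ε) x x) (𝓝[>] 0) (𝓝 0) := by
        rw [tendsto_zero_iff_abs_tendsto_zero]
        have : Tendsto (fun ε : ℝ => 2 * K0 * |ε| * (‖x‖ * ‖x‖ / w x)) (𝓝[>] 0) (𝓝 (2 * K0 * |(0:ℝ)| * (‖x‖ * ‖x‖ / w x))) := by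
          apply tendsto_nhdsWithin_of_tendsto_nhds
          apply Continuous.tendsto
          fun_prop
        simp only [abs_zero, mul_zero, zero_mul] at this
        refine squeeze_zero (fun _ => abs_nonneg _) (fun ε => chi_fderiv_dir ε x x) this
      have c3 := (((c1.const_mul (w x ^ t)).const_mul (n : ℝ)).add
        ((c1.const_mul (2 * t * w x ^ (t - 1) * ‖x‖ ^ 2)).add (c2.const_mul (w x ^ t))))
      simpa using c3
  have Z : ∀ᶠ ε in 𝓝[>] (0:ℝ), ∫ x : V n, ((n : ℝ) * (w x ^ t * chi ε x) +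
      fderiv ℝ (fun y => w y ^ t * chi ε y) x x) = 0 := by
    filter_upwards [self_mem_nhdsWithin] with ε hε
    have hh : ContDiff ℝ 1 (fun y : V n => w y ^ t * chi ε y) :=
      (w_rpow_contDiff t).mul ((chi_contDiff ε).of_le (by simp))
    exact int_div_radial hh ((chi_hcs hε).mul_left)
  have L0 : Tendsto (fun ε : ℝ => ∫ x : V n, ((n : ℝ) * (w x ^ t * chi ε x) +
      fderiv ℝ (fun y => w y ^ t * chi ε y) x x)) (𝓝[>] 0) (𝓝 0) :=
    tendsto_const_nhds.congr' (Z.mono fun ε h => h.symm)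
  exact tendsto_nhds_unique L L0

/-- `∫ w^t + 2 t ∫ w^(t-1) ⟨x,e⟩^2 = 0` for a unit vector `e`. -/
lemma rel_dir {t : ℝ} (ht : t < -(n : ℝ) / 2) (e : V n) (he : ‖e‖ = 1) :
    ∫ x : V n, (w x ^ t + 2 * t * w x ^ (t - 1) * (inner ℝ x e) ^ 2) = 0 := by
  have hin : ∀ x : V n, |inner ℝ x e| ≤ ‖x‖ := by
    intro x
    have := abs_real_inner_le_norm x e
    rwa [he, mul_one] at this
  have hinc : ContDiff ℝ ∞ (fun x : V n => inner ℝ x e) := contDiff_id.inner ℝ contDiff_const
  have L : Tendsto (fun ε : ℝ => ∫ x : V n,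
      fderiv ℝ (fun y => inner ℝ y e * (w y ^ t * chi ε y)) x e) (𝓝[>] 0)
      (𝓝 (∫ x : V n, (w x ^ t + 2 * t * w x ^ (t - 1) * (inner ℝ x e) ^ 2))) := by
    have hder : ∀ ε (x : V n), fderiv ℝ (fun y => inner ℝ y e * (w y ^ t * chi ε y)) x e =
        w x ^ t * chi ε x + (2 * t * w x ^ (t - 1) * (inner ℝ x e) ^ 2 * chi ε x
          + inner ℝ x e * (w x ^ t * fderiv ℝ (chi ε) x e)) := by
      intro ε x
      have h0 : HasFDerivAt (fun y : V n => inner ℝ y e) (innerSL ℝ e : V n →L[ℝ] ℝ) x := by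
        have := (innerSL ℝ e : V n →L[ℝ] ℝ).hasFDerivAt (x := x)
        refine this.congr_of_eventuallyEq (Eventually.of_forall fun y => ?_)
        simp [real_inner_comm]
      have h1 := ((w_rpow_contDiff (n := n) (m := 1) t).differentiable one_ne_zero x).hasFDerivAt
      have h2 := ((chi_contDiff (n := n) ε).differentiable (by simp) x).hasFDerivAt
      have h3 := h0.mul (h1.mul h2)
      have h4 : fderiv ℝ (fun y => inner ℝ y e * (w y ^ t * chi ε y)) x = _ := h3.fderiv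
      rw [h4]
      simp only [_root_.add_apply, _root_.smul_apply, smul_eq_mul, w_rpow_fderiv, Pi.mul_apply,
        innerSL_apply_apply, real_inner_self_eq_norm_sq, he]
      ring
    refine tendsto_integral_filter_of_dominated_convergence
      (fun x => (1 + 2 * |t| + 2 * K0) * w x ^ t) ?_ ?_ ((w_integrable ht).const_mul _) ?_
    · filter_upwards with ε
      apply Continuous.aestronglyMeasurable
      have hh : ContDiff ℝ 1 (fun y : V n => inner ℝ y e * (w y ^ t * chi ε y)) :=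
        (hinc.of_le (by simp)).mul ((w_rpow_contDiff t).mul ((chi_contDiff ε).of_le (by simp)))
      exact ((hh.continuous_fderiv one_ne_zero).clm_apply continuous_const)
    · filter_upwards [Ioo_mem_nhdsGT (show (0:ℝ) < 1 by norm_num)] with ε hε
      filter_upwards with x
      rw [hder]
      have h1 := chi_nonneg ε x
      have h2 := chi_le_one ε x
      have h3 := w_rpow_pos t x
      have h3' := w_rpow_pos (t - 1) x
      have h4 := w_pos x
      have h5 : ‖x‖ ^ 2 ≤ w x := by rw [normsq_eq]; linarith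
      have h6 := chi_fderiv_dir ε x e
      have hK := K0_nonneg
      have hx := hin x
      have h7 : (inner ℝ x e) ^ 2 ≤ w x := by
        have : (inner ℝ x e) ^ 2 ≤ ‖x‖ ^ 2 := by
          rw [← sq_abs (inner ℝ x e)]; gcongr
        linarith
      have e1 : |inner ℝ x e| * |fderiv ℝ (chi ε) x e| ≤ 2 * K0 := by
        rw [abs_of_pos hε.1, he, mul_one] at h6
        have : ‖x‖ * ‖x‖ / w x ≤ 1 := by rw [div_le_one h4]; nlinarith
        have h0 : 0 ≤ ‖x‖ * ‖x‖ / w x := by positivity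
        calc |inner ℝ x e| * |fderiv ℝ (chi ε) x e| ≤ ‖x‖ * (2 * K0 * ε * (‖x‖ / w x)) := by gcongr
          _ = 2 * K0 * ε * (‖x‖ * ‖x‖ / w x) := by ring
          _ ≤ 2 * K0 * 1 * 1 := by
              have := hε.2
              have := hε.1
              gcongr
          _ = 2 * K0 := by ring
      have e2 : |2 * t * w x ^ (t - 1) * (inner ℝ x e) ^ 2 * chi ε x| ≤ 2 * |t| * w x ^ t := by
        rw [abs_mul, abs_mul, abs_mul, abs_mul, abs_of_nonneg h1, abs_of_pos h3',
          abs_of_nonneg (sq_nonneg (inner ℝ x e)), abs_of_pos (two_pos : (0:ℝ) < 2), rpow_split x t]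
        calc 2 * |t| * w x ^ (t - 1) * (inner ℝ x e) ^ 2 * chi ε x ≤ 2 * |t| * w x ^ (t - 1) * w x * 1 := by gcongr
          _ = _ := by ring
      have e3 : |(w x ^ t * chi ε x)| ≤ w x ^ t := by
        rw [abs_mul, abs_of_nonneg h1, abs_of_pos h3]
        nlinarith
      have e4 : |inner ℝ x e * (w x ^ t * fderiv ℝ (chi ε) x e)| ≤ 2 * K0 * w x ^ t := by
        rw [abs_mul, abs_mul, abs_of_pos h3]
        nlinarith
      rw [Real.norm_eq_abs]
      calc |(w x ^ t * chi ε x) + (2 * t * w x ^ (t - 1) * (inner ℝ x e) ^ 2 * chi ε x + inner ℝ x e * (w x ^ t * fderiv ℝ (chi ε) x e))|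
          ≤ |(w x ^ t * chi ε x)| + (|2 * t * w x ^ (t - 1) * (inner ℝ x e) ^ 2 * chi ε x| + |inner ℝ x e * (w x ^ t * fderiv ℝ (chi ε) x e)|) :=
            (abs_add_le _ _).trans (add_le_add_right (abs_add_le _ _) _)
        _ ≤ w x ^ t + (2 * |t| * w x ^ t + 2 * K0 * w x ^ t) := by gcongr
        _ = _ := by ring
    · filter_upwards with x
      simp only [hder]
      have c1 := chi_tendsto (n := n) x
      have c2 : Tendsto (fun ε : ℝ => fderiv ℝ (chi ε) x e) (𝓝[>] 0) (𝓝 0) := by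
        rw [tendsto_zero_iff_abs_tendsto_zero]
        have : Tendsto (fun ε : ℝ => 2 * K0 * |ε| * (‖x‖ * ‖e‖ / w x)) (𝓝[>] 0) (𝓝 (2 * K0 * |(0:ℝ)| * (‖x‖ * ‖e‖ / w x))) := by
          apply tendsto_nhdsWithin_of_tendsto_nhds
          apply Continuous.tendsto
          fun_prop
        simp only [abs_zero, mul_zero, zero_mul] at this
        refine squeeze_zero (fun _ => abs_nonneg _) (fun ε => chi_fderiv_dir ε x e) this
      have c3 := (((c1.const_mul (w x ^ t))).add
        ((c1.const_mul (2 * t * w x ^ (t - 1) * (inner ℝ x e) ^ 2)).add ((c2.const_mul (w x ^ t)).const_mul (inner ℝ x e))))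
      simpa using c3
  have Z : ∀ᶠ ε in 𝓝[>] (0:ℝ), ∫ x : V n,
      fderiv ℝ (fun y => inner ℝ y e * (w y ^ t * chi ε y)) x e = 0 := by
    filter_upwards [self_mem_nhdsWithin] with ε hε
    have hh : ContDiff ℝ 1 (fun y : V n => inner ℝ y e * (w y ^ t * chi ε y)) :=
      (hinc.of_le (by simp)).mul ((w_rpow_contDiff t).mul ((chi_contDiff ε).of_le (by simp)))
    exact int_fderiv_dir hh (((chi_hcs hε).mul_left).mul_left) e
  have L0 : Tendsto (fun ε : ℝ => ∫ x : V n,
      fderiv ℝ (fun y => inner ℝ y e * (w y ^ t * chi ε y)) x e) (𝓝[>] 0) (𝓝 0) :=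
    tendsto_const_nhds.congr' (Z.mono fun ε h => h.symm)
  exact tendsto_nhds_unique L L0

lemma tail_integrable {t : ℝ} (ht : t < -(n : ℝ) / 2) :
    Integrable (fun x : V n => w x ^ (t - 1) * ‖x‖ ^ 2) := by
  have h1 : Integrable (fun x : V n => w x ^ t) := w_integrable ht
  have h2 : Integrable (fun x : V n => w x ^ (t - 1)) := w_integrable (by linarith)
  refine (h1.sub h2).congr (Eventually.of_forall fun x => ?_)
  simp only [Pi.sub_apply]
  rw [normsq_eq, rpow_split x t]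
  ring

/-- recursion for `J t = ∫ w^t`: `(n + 2t) J t = 2 t J (t-1)`. -/
lemma J_rel {t : ℝ} (ht : t < -(n : ℝ) / 2) :
    ((n : ℝ) + 2 * t) * ∫ x : V n, w x ^ t = 2 * t * ∫ x : V n, w x ^ (t - 1) := by
  have h1 : Integrable (fun x : V n => w x ^ t) := w_integrable ht
  have h2 : Integrable (fun x : V n => w x ^ (t - 1)) := w_integrable (by linarith)
  have h3 := rel_radial ht
  have h4 : ∀ x : V n, (n : ℝ) * w x ^ t + 2 * t * w x ^ (t - 1) * ‖x‖ ^ 2 =
      ((n : ℝ) + 2 * t) * w x ^ t - 2 * t * w x ^ (t - 1) := by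
    intro x
    rw [normsq_eq, rpow_split x t]
    ring
  simp_rw [h4] at h3
  rw [integral_sub (h1.const_mul _) (h2.const_mul _), integral_const_mul, integral_const_mul] at h3
  linarith

lemma fderiv_w_pow_normsq (b : ℝ) (x : V n) :
    ‖fderiv ℝ (fun x : V n => w x ^ b) x‖ ^ 2 = 4 * b ^ 2 * w x ^ (2 * b - 2) * ‖x‖ ^ 2 := by
  have h : fderiv ℝ (fun x : V n => w x ^ b) x = (2 * b * w x ^ (b - 1)) • innerSL ℝ x := by
    ext v
    simp [w_rpow_fderiv]
  rw [h, norm_smul, innerSL_apply_norm, mul_pow, Real.norm_eq_abs, sq_abs]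
  have : w x ^ (2 * b - 2) = (w x ^ (b - 1)) ^ 2 := by
    rw [← Real.rpow_natCast, ← Real.rpow_mul (w_pos x).le]; congr 1; push_cast; ring
  rw [this]; ring

/-- energy density of `w^b` -/
lemma energy_w_pow (α b : ℝ) (x : V n) :
    w x ^ α * ‖fderiv ℝ (fun x : V n => w x ^ b) x‖ ^ 2 =
      4 * b ^ 2 * (w x ^ (α + 2 * b - 1 - 1) * ‖x‖ ^ 2) := by
  rw [fderiv_w_pow_normsq]
  have : w x ^ (α + 2 * b - 1 - 1) = w x ^ α * w x ^ (2 * b - 2) := by
    rw [← Real.rpow_add (w_pos x)]; congr 1; ring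
  rw [this]; ring

lemma mass_w_pow (α b : ℝ) (x : V n) :
    w x ^ (α - 1) * (w x ^ b) ^ 2 = w x ^ (α + 2 * b - 1) := by
  have : w x ^ (α + 2 * b - 1) = w x ^ (α - 1) * (w x ^ b) ^ 2 := by
    rw [← Real.rpow_natCast, ← Real.rpow_mul (w_pos x).le, ← Real.rpow_add (w_pos x)]
    congr 1; push_cast; ring
  rw [this]

/-- Upper bound without constraint, the test function `w^b`. -/
lemma upper_free (α c b : ℝ) (hb : α + 2 * b - 1 < -(n : ℝ) / 2)
    (hc : ∀ u : V n → ℝ, ContDiff ℝ ∞ u → HasCompactSupport u → c * Ms α u ≤ En α u) :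
    c * ∫ x : V n, w x ^ (α + 2 * b - 1) ≤
      4 * b ^ 2 * ∫ x : V n, w x ^ (α + 2 * b - 1 - 1) * ‖x‖ ^ 2 := by
  have I1 : Integrable fun x : V n => w x ^ α * ‖fderiv ℝ (fun x : V n => w x ^ b) x‖ ^ 2 := by
    simp_rw [energy_w_pow]
    exact (tail_integrable hb).const_mul _
  have I2 : Integrable fun x : V n => w x ^ (α - 1) * (w x ^ b) ^ 2 := by
    simp_rw [mass_w_pow]
    exact w_integrable hb
  have := upper_gen α c (fun x : V n => w x ^ b) (w_rpow_contDiff b) I1 I2 (fun _ => 0)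
    tendsto_const_nhds (Or.inl fun _ => rfl) (fun ε hε => by
      apply hc
      · exact (chi_contDiff ε).mul ((w_rpow_contDiff b).sub contDiff_const)
      · exact (chi_hcs hε).mul_right)
  unfold Ms En at this
  simp_rw [energy_w_pow, mass_w_pow] at this
  rwa [integral_const_mul] at this

lemma tail_le {t : ℝ} (ht : t < -(n : ℝ) / 2) :
    ∫ x : V n, w x ^ (t - 1) * ‖x‖ ^ 2 ≤ ∫ x : V n, w x ^ t := by
  refine integral_mono (tail_integrable ht) (w_integrable ht) ?_
  intro x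
  simp only
  rw [rpow_split x t, normsq_eq]
  have := w_rpow_pos (t - 1) x
  nlinarith

lemma U1 (α c : ℝ)
    (hc : ∀ u : V n → ℝ, ContDiff ℝ ∞ u → HasCompactSupport u → c * Ms α u ≤ En α u) :
    c ≤ ((n : ℝ) + 2 * α - 2) ^ 2 / 4 := by
  have key : ∀ δ : ℝ, 0 < δ → c ≤ (((n : ℝ) + 2 * α - 2) / 2 + δ) ^ 2 := by
    intro δ hδ
    set b : ℝ := -((((n : ℝ) + 2 * α - 2) / 2 + δ) / 2) with hb
    have hb1 : α + 2 * b - 1 < -(n : ℝ) / 2 := by rw [hb]; linarith
    have h1 := upper_free α c b hb1 hc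
    have h2 := tail_le hb1
    have h3 := int_w_pos hb1
    have h4 : c * ∫ x : V n, w x ^ (α + 2 * b - 1) ≤ 4 * b ^ 2 * ∫ x : V n, w x ^ (α + 2 * b - 1) :=
      h1.trans (mul_le_mul_of_nonneg_left h2 (by positivity))
    have h5 := le_of_mul_le_mul_right h4 h3
    refine h5.trans (le_of_eq ?_)
    rw [hb]; ring
  have L : Tendsto (fun δ : ℝ => (((n : ℝ) + 2 * α - 2) / 2 + δ) ^ 2) (𝓝[>] 0)
      (𝓝 ((((n : ℝ) + 2 * α - 2) / 2 + 0) ^ 2)) := by
    apply tendsto_nhdsWithin_of_tendsto_nhds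
    apply Continuous.tendsto
    fun_prop
  have := ge_of_tendsto L (by filter_upwards [self_mem_nhdsWithin] with δ hδ using key δ hδ)
  refine this.trans (le_of_eq ?_)
  ring

lemma U2 (α c : ℝ) (hα : 1 + (n : ℝ) / 2 < α)
    (hc : ∀ u : V n → ℝ, ContDiff ℝ ∞ u → HasCompactSupport u → c * Ms α u ≤ En α u) :
    c ≤ 2 * n * (α - 1) := by
  have hb1 : α + 2 * (1 - α) - 1 < -(n : ℝ) / 2 := by linarith
  have h1 := upper_free α c (1 - α) hb1 hc
  have h2 := rel_radial hb1
  have h3 := int_w_pos hb1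
  have h4 : ∀ x : V n, (n : ℝ) * w x ^ (α + 2 * (1 - α) - 1) +
      2 * (α + 2 * (1 - α) - 1) * w x ^ (α + 2 * (1 - α) - 1 - 1) * ‖x‖ ^ 2 =
      (n : ℝ) * w x ^ (α + 2 * (1 - α) - 1) +
      (2 * (α + 2 * (1 - α) - 1)) * (w x ^ (α + 2 * (1 - α) - 1 - 1) * ‖x‖ ^ 2) := by
    intro x; ring
  simp_rw [h4] at h2
  rw [integral_add ((w_integrable hb1).const_mul _) ((tail_integrable hb1).const_mul _),
    integral_const_mul, integral_const_mul] at h2
  set J := ∫ x : V n, w x ^ (α + 2 * (1 - α) - 1)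
  set T := ∫ x : V n, w x ^ (α + 2 * (1 - α) - 1 - 1) * ‖x‖ ^ 2
  have h5 : 4 * (1 - α) ^ 2 * T = 2 * n * (α - 1) * J := by
    have : 2 * (α - 1) * T = n * J := by linarith
    calc 4 * (1 - α) ^ 2 * T = 2 * (α - 1) * (2 * (α - 1) * T) := by ring
      _ = _ := by rw [this]; ring
  rw [h5] at h1
  exact le_of_mul_le_mul_right h1 h3

/-- Constrained version of `upper_gen`. -/
lemma upper_con (α c : ℝ) (hα : α < -((n : ℝ) - 2) / 2) (φ : V n → ℝ) (hφ : ContDiff ℝ ∞ φ)
    (I1 : Integrable fun x => w x ^ α * ‖fderiv ℝ φ x‖ ^ 2)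
    (I2 : Integrable fun x => w x ^ (α - 1) * φ x ^ 2)
    (h0 : ∫ x, w x ^ (α - 1) * φ x = 0)
    (hc : ∀ u : V n → ℝ, ContDiff ℝ ∞ u → HasCompactSupport u → ∫ x, w x ^ (α - 1) * u x = 0 →
      c * Ms α u ≤ En α u) :
    c * Ms α φ ≤ En α φ := by
  have hint : Integrable (fun x : V n => w x ^ (α - 1)) := w_integrable (by linarith)
  have hB := int_w_pos (n := n) (s := α - 1) (by linarith)
  have hdom : Integrable (fun x : V n => w x ^ (α - 1) + w x ^ (α - 1) * φ x ^ 2) := hint.add I2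
  have La : Tendsto (fun ε : ℝ => ∫ x, w x ^ (α - 1) * (chi ε x * φ x)) (𝓝[>] 0)
      (𝓝 (∫ x, w x ^ (α - 1) * φ x)) := by
    refine tendsto_integral_filter_of_dominated_convergence _ ?_ ?_ hdom ?_
    · filter_upwards with ε
      apply Continuous.aestronglyMeasurable
      exact (w_rpow_cont _).mul ((chi_contDiff ε).continuous.mul hφ.continuous)
    · filter_upwards with ε
      filter_upwards with x
      have h1 := chi_nonneg ε x
      have h2 := chi_le_one ε x
      have h3 := w_rpow_pos (α - 1) x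
      rw [Real.norm_eq_abs, abs_mul, abs_mul, abs_of_pos h3, abs_of_nonneg h1]
      have h4 : |φ x| ≤ 1 + φ x ^ 2 := by
        have : |φ x| ^ 2 = φ x ^ 2 := sq_abs _
        nlinarith [abs_nonneg (φ x), sq_nonneg (|φ x| - 1)]
      have h5 : chi ε x * |φ x| ≤ 1 * (1 + φ x ^ 2) := by
        apply mul_le_mul h2 h4 (abs_nonneg _) zero_le_one
      nlinarith [mul_le_mul_of_nonneg_left h5 h3.le]
    · filter_upwards with x
      have h1 := ((chi_tendsto (n := n) x).mul_const (φ x)).const_mul (w x ^ (α - 1))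
      simpa using h1
  have Lb : Tendsto (fun ε : ℝ => ∫ x : V n, w x ^ (α - 1) * chi ε x) (𝓝[>] 0)
      (𝓝 (∫ x : V n, w x ^ (α - 1))) := by
    refine tendsto_integral_filter_of_dominated_convergence _ ?_ ?_ hint ?_
    · filter_upwards with ε
      apply Continuous.aestronglyMeasurable
      exact (w_rpow_cont _).mul ((chi_contDiff ε).continuous)
    · filter_upwards with ε
      filter_upwards with x
      have h1 := chi_nonneg ε x
      have h2 := chi_le_one ε x
      have h3 := w_rpow_pos (α - 1) x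
      rw [Real.norm_eq_abs, abs_mul, abs_of_pos h3, abs_of_nonneg h1]
      nlinarith
    · filter_upwards with x
      have h1 := ((chi_tendsto (n := n) x)).const_mul (w x ^ (α - 1))
      simpa using h1
  refine upper_gen α c φ hφ I1 I2
    (fun ε => (∫ x, w x ^ (α - 1) * (chi ε x * φ x)) / (∫ x : V n, w x ^ (α - 1) * chi ε x)) ?_
    (Or.inr hint) ?_
  · have := La.div Lb hB.ne'
    rw [h0, zero_div] at this
    exact this
  · intro ε hε
    apply hc
    · exact (chi_contDiff ε).mul (hφ.sub contDiff_const)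
    · exact (chi_hcs hε).mul_right
    · have hbpos : 0 < ∫ x : V n, w x ^ (α - 1) * chi ε x := by
        refine Continuous.integral_pos_of_hasCompactSupport_nonneg_nonzero (x := (0 : V n)) ?_ ?_ ?_ ?_
        · exact (w_rpow_cont _).mul ((chi_contDiff ε).continuous)
        · exact (chi_hcs hε).mul_left
        · intro x
          exact mul_nonneg (w_rpow_pos _ x).le (chi_nonneg _ _)
        · have : w (0 : V n) = 1 := by unfold w; simp
          rw [chi_eq_one (by rw [this]; simp), this]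
          simp
      set m : ℝ := (∫ x, w x ^ (α - 1) * (chi ε x * φ x)) / (∫ x : V n, w x ^ (α - 1) * chi ε x) with hm
      have e : ∀ x : V n, w x ^ (α - 1) * (chi ε x * (φ x - m)) =
          w x ^ (α - 1) * (chi ε x * φ x) - m * (w x ^ (α - 1) * chi ε x) := by
        intro x; ring
      simp_rw [e]
      rw [integral_sub, integral_const_mul, hm, div_mul_cancel₀ _ hbpos.ne', sub_self]
      · apply Continuous.integrable_of_hasCompactSupport
        · exact (w_rpow_cont _).mul ((chi_contDiff ε).continuous.mul hφ.continuous)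
        · exact ((chi_hcs hε).mul_right).mul_left
      · apply Integrable.const_mul
        apply Continuous.integrable_of_hasCompactSupport
        · exact (w_rpow_cont _).mul ((chi_contDiff ε).continuous)
        · exact ((chi_hcs hε)).mul_left

/-- Test function `⟨x, e⟩`. -/
lemma U3 (α c : ℝ) (hα : α < -(n : ℝ) / 2) (hn : 0 < n)
    (hc : ∀ u : V n → ℝ, ContDiff ℝ ∞ u → HasCompactSupport u → ∫ x, w x ^ (α - 1) * u x = 0 →
      c * Ms α u ≤ En α u) :
    c ≤ -2 * α := by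
  set e : V n := EuclideanSpace.single ⟨0, hn⟩ 1 with he
  have he1 : ‖e‖ = 1 := by rw [he]; simp
  have hin : ∀ x : V n, |inner ℝ x e| ≤ ‖x‖ := by
    intro x
    have := abs_real_inner_le_norm x e
    rwa [he1, mul_one] at this
  have hinc : ContDiff ℝ ∞ (fun x : V n => inner ℝ x e) := contDiff_id.inner ℝ contDiff_const
  have hfd : ∀ x : V n, ‖fderiv ℝ (fun x : V n => inner ℝ x e) x‖ ^ 2 = 1 := by
    intro x
    have h0 : HasFDerivAt (fun y : V n => inner ℝ y e) (innerSL ℝ e : V n →L[ℝ] ℝ) x := by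
      have := (innerSL ℝ e : V n →L[ℝ] ℝ).hasFDerivAt (x := x)
      refine this.congr_of_eventuallyEq (Eventually.of_forall fun y => ?_)
      simp [real_inner_comm]
    rw [h0.fderiv, innerSL_apply_norm, he1]; norm_num
  have I1 : Integrable fun x : V n => w x ^ α * ‖fderiv ℝ (fun x : V n => inner ℝ x e) x‖ ^ 2 := by
    simp_rw [hfd, mul_one]
    exact w_integrable hα
  have I2 : Integrable fun x : V n => w x ^ (α - 1) * (inner ℝ x e) ^ 2 := by
    refine (tail_integrable hα).mono' ?_ ?_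
    · apply Continuous.aestronglyMeasurable
      exact (w_rpow_cont _).mul (hinc.continuous.pow 2)
    · filter_upwards with x
      have h3 := w_rpow_pos (α - 1) x
      rw [Real.norm_of_nonneg (by positivity)]
      have : (inner ℝ x e) ^ 2 ≤ ‖x‖ ^ 2 := by
        rw [← sq_abs (inner ℝ x e)]
        have := hin x
        gcongr
      exact mul_le_mul_of_nonneg_left this h3.le
  have h0 : ∫ x : V n, w x ^ (α - 1) * inner ℝ x e = 0 := by
    have h1 : ∫ x : V n, w x ^ (α - 1) * inner ℝ x e = ∫ x : V n, w (-x) ^ (α - 1) * inner ℝ (-x) e :=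
      (integral_neg_eq_self (fun x : V n => w x ^ (α - 1) * inner ℝ x e) volume).symm
    have h2 : ∀ x : V n, w (-x) ^ (α - 1) * inner ℝ (-x) e = -(w x ^ (α - 1) * inner ℝ x e) := by
      intro x
      have : w (-x) = w x := by unfold w; simp
      rw [this, inner_neg_left]; ring
    simp_rw [h2, integral_neg] at h1
    linarith
  by_cases hcond : α < -((n : ℝ) - 2) / 2
  swap
  · exfalso; linarith
  have h1 := upper_con α c hcond (fun x : V n => inner ℝ x e) hinc I1 I2 h0 hc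
  have h2 := rel_dir hα e he1
  have h3 := int_w_pos hα
  have h4 : ∀ x : V n, w x ^ α + 2 * α * w x ^ (α - 1) * (inner ℝ x e) ^ 2 =
      w x ^ α + (2 * α) * (w x ^ (α - 1) * (inner ℝ x e) ^ 2) := by intro x; ring
  simp_rw [h4] at h2
  rw [integral_add (w_integrable hα) (I2.const_mul _), integral_const_mul] at h2
  unfold Ms En at h1
  simp_rw [hfd, mul_one] at h1
  set T := ∫ x : V n, w x ^ (α - 1) * (inner ℝ x e) ^ 2
  set J := ∫ x : V n, w x ^ α
  have hn' : (0 : ℝ) < n := by exact_mod_cast hn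
  have hT : 0 < T := by
    by_contra hT
    push Not at hT
    nlinarith
  have : c * T ≤ (-2 * α) * T := by linarith
  exact le_of_mul_le_mul_right this hT

/-- Test function `w^b - C`, giving both radial bounds. -/
lemma upper_radial (α c b : ℝ) (hα : α < -((n : ℝ) - 2) / 2) (hb : α + 2 * b - 1 < -(n : ℝ) / 2)
    (hc : ∀ u : V n → ℝ, ContDiff ℝ ∞ u → HasCompactSupport u → ∫ x, w x ^ (α - 1) * u x = 0 →
      c * Ms α u ≤ En α u) :
    c * ((∫ x : V n, w x ^ (α + 2 * b - 1)) - (∫ x : V n, w x ^ (α + b - 1)) ^ 2 / ∫ x : V n, w x ^ (α - 1)) ≤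
      4 * b ^ 2 * ∫ x : V n, w x ^ (α + 2 * b - 1 - 1) * ‖x‖ ^ 2 := by
  have i0 : Integrable (fun x : V n => w x ^ (α - 1)) := w_integrable (by linarith)
  have i1 : Integrable (fun x : V n => w x ^ (α + b - 1)) := w_integrable (by linarith)
  have i2 : Integrable (fun x : V n => w x ^ (α + 2 * b - 1)) := w_integrable hb
  have p0 := int_w_pos (n := n) (s := α - 1) (by linarith)
  set J0 := ∫ x : V n, w x ^ (α - 1) with hJ0
  set J1 := ∫ x : V n, w x ^ (α + b - 1) with hJ1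
  set J2 := ∫ x : V n, w x ^ (α + 2 * b - 1) with hJ2
  set C := J1 / J0 with hC
  have hφ : ContDiff ℝ ∞ (fun x : V n => w x ^ b - C) := (w_rpow_contDiff b).sub contDiff_const
  have hfd : ∀ x : V n, fderiv ℝ (fun x : V n => w x ^ b - C) x = fderiv ℝ (fun x : V n => w x ^ b) x := by
    intro x
    rw [fderiv_sub_const]
  have hm1 : ∀ x : V n, w x ^ (α - 1) * w x ^ b = w x ^ (α + b - 1) := by
    intro x
    rw [← Real.rpow_add (w_pos x)]; congr 1; ring
  have hm2 : ∀ x : V n, w x ^ (α - 1) * (w x ^ b - C) ^ 2 =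
      w x ^ (α + 2 * b - 1) - 2 * C * w x ^ (α + b - 1) + C ^ 2 * w x ^ (α - 1) := by
    intro x
    rw [← mass_w_pow, ← hm1]; ring
  have I1 : Integrable fun x : V n => w x ^ α * ‖fderiv ℝ (fun x : V n => w x ^ b - C) x‖ ^ 2 := by
    simp_rw [hfd, energy_w_pow]
    exact (tail_integrable hb).const_mul _
  have I2 : Integrable fun x : V n => w x ^ (α - 1) * (w x ^ b - C) ^ 2 := by
    simp_rw [hm2]
    exact (i2.sub (i1.const_mul _)).add (i0.const_mul _)
  have h0 : ∫ x : V n, w x ^ (α - 1) * (w x ^ b - C) = 0 := by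
    have : ∀ x : V n, w x ^ (α - 1) * (w x ^ b - C) = w x ^ (α + b - 1) - C * w x ^ (α - 1) := by
      intro x; rw [← hm1]; ring
    simp_rw [this]
    rw [integral_sub i1 (i0.const_mul _), integral_const_mul, ← hJ1, ← hJ0, hC, div_mul_cancel₀ _ p0.ne',
      sub_self]
  have h1 := upper_con α c hα (fun x : V n => w x ^ b - C) hφ I1 I2 h0 hc
  unfold Ms En at h1
  simp_rw [hfd, energy_w_pow, hm2] at h1
  have i12 : Integrable (fun x : V n => w x ^ (α + 2 * b - 1) - 2 * C * w x ^ (α + b - 1)) :=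
    i2.sub (i1.const_mul _)
  rw [integral_const_mul, integral_add i12 (i0.const_mul _), integral_sub i2 (i1.const_mul _),
    integral_const_mul, integral_const_mul, ← hJ1, ← hJ0, ← hJ2] at h1
  refine le_trans (le_of_eq ?_) h1
  rw [hC]
  field_simp
  ring

lemma U4 (α c : ℝ) (hα : α < -((n : ℝ) + 2) / 2)
    (hc : ∀ u : V n → ℝ, ContDiff ℝ ∞ u → HasCompactSupport u → ∫ x, w x ^ (α - 1) * u x = 0 →
      c * Ms α u ≤ En α u) (hn : 0 < n) :
    c ≤ -4 * α - 2 * n := by
  have hn' : (0 : ℝ) < n := by exact_mod_cast hn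
  have h1 := upper_radial α c 1 (by linarith) (by linarith) hc
  have hb1 : α + 2 * 1 - 1 < -(n : ℝ) / 2 := by linarith
  have r1 := J_rel hb1
  have r2 := J_rel (n := n) (t := α + 2 * 1 - 1 - 1) (by linarith)
  have h2 := rel_radial hb1
  have p0 := int_w_pos (n := n) (s := α - 1) (by linarith)
  have p2 := int_w_pos hb1
  have h4 : ∀ x : V n, (n : ℝ) * w x ^ (α + 2 * 1 - 1) +
      2 * (α + 2 * 1 - 1) * w x ^ (α + 2 * 1 - 1 - 1) * ‖x‖ ^ 2 =
      (n : ℝ) * w x ^ (α + 2 * 1 - 1) +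
      (2 * (α + 2 * 1 - 1)) * (w x ^ (α + 2 * 1 - 1 - 1) * ‖x‖ ^ 2) := by
    intro x; ring
  simp_rw [h4] at h2
  rw [integral_add ((w_integrable hb1).const_mul _) ((tail_integrable hb1).const_mul _),
    integral_const_mul, integral_const_mul] at h2
  have e1 : α + 1 - 1 = α + 2 * 1 - 1 - 1 := by ring
  have e0 : α - 1 = α + 2 * 1 - 1 - 1 - 1 := by ring
  rw [e1, e0] at h1
  rw [e0] at p0
  have hJ1pos := int_w_pos (n := n) (s := α + 2 * 1 - 1 - 1) (by linarith)
  set J2 := ∫ x : V n, w x ^ (α + 2 * 1 - 1)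
  set J1 := ∫ x : V n, w x ^ (α + 2 * 1 - 1 - 1)
  set J0 := ∫ x : V n, w x ^ (α + 2 * 1 - 1 - 1 - 1)
  set T := ∫ x : V n, w x ^ (α + 2 * 1 - 1 - 1) * ‖x‖ ^ 2
  -- r1 : (n + 2(α+1)) J2 = 2 (α+1) J1 ; r2 : (n + 2α) J1 = 2α J0 ; h2 : n J2 + 2(α+1) T = 0
  have hα1 : α + 1 < 0 := by linarith
  have hα0 : α < 0 := by linarith
  have hna : (n : ℝ) + 2 * α < 0 := by linarith
  have g1 : 2 * (α + 1) ≠ 0 := mul_ne_zero two_ne_zero hα1.ne
  have g0 : 2 * α ≠ 0 := mul_ne_zero two_ne_zero hα0.ne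
  have q1 : J1 = ((n : ℝ) + 2 * (α + 1)) / (2 * (α + 1)) * J2 := by
    rw [div_mul_eq_mul_div, eq_div_iff g1]
    have : (n : ℝ) + 2 * (α + 2 * 1 - 1) = n + 2 * (α + 1) := by ring
    rw [this] at r1
    have : 2 * (α + 2 * 1 - 1) = 2 * (α + 1) := by ring
    rw [this] at r1
    linarith
  have q0 : J0 = ((n : ℝ) + 2 * α) / (2 * α) * J1 := by
    rw [div_mul_eq_mul_div, eq_div_iff g0]
    have : (n : ℝ) + 2 * (α + 2 * 1 - 1 - 1) = n + 2 * α := by ring
    rw [this] at r2
    have : 2 * (α + 2 * 1 - 1 - 1) = 2 * α := by ring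
    rw [this] at r2
    linarith
  have qT : T = -(n : ℝ) / (2 * (α + 1)) * J2 := by
    rw [div_mul_eq_mul_div, eq_div_iff g1]
    linarith
  have q3 : J1 ^ 2 / J0 = 2 * α / ((n : ℝ) + 2 * α) * J1 := by
    rw [q0]
    have := hJ1pos.ne'
    have := hna.ne
    have := hα0.ne
    field_simp
  have q4 : J2 - J1 ^ 2 / J0 = (2 * n : ℝ) / ((-(α + 1)) * (-4 * α - 2 * n)) * J2 := by
    rw [q3, q1]
    have h5 : (n : ℝ) + 2 * α ≠ 0 := hna.ne
    have h6 : α + 1 ≠ 0 := hα1.ne
    rw [show (-4 * α - 2 * (n : ℝ)) = -2 * (n + 2 * α) by ring]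
    field_simp
    ring
  rw [q4, qT] at h1
  have h8 : 0 < (2 * n : ℝ) / ((-(α + 1)) * (-4 * α - 2 * n)) * J2 := by
    apply mul_pos _ p2
    apply div_pos (by linarith)
    apply mul_pos <;> linarith
  have h9 : 4 * (1:ℝ) ^ 2 * (-(n : ℝ) / (2 * (α + 1)) * J2) =
      (-4 * α - 2 * n) * ((2 * n : ℝ) / ((-(α + 1)) * (-4 * α - 2 * n)) * J2) := by
    have h5 : (n : ℝ) + 2 * α ≠ 0 := hna.ne
    have h6 : α + 1 ≠ 0 := hα1.ne
    rw [show (-4 * α - 2 * (n : ℝ)) = -2 * (n + 2 * α) by ring]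
    field_simp
    ring
  rw [h9] at h1
  exact le_of_mul_le_mul_right h1 h8

lemma w_rpow_mono (x : V n) {s t : ℝ} (h : s ≤ t) : w x ^ s ≤ w x ^ t :=
  Real.rpow_le_rpow_of_exponent_le (one_le_w x) h

lemma U5 (α c : ℝ) (hα : α < -((n : ℝ) - 2) / 2) (hn : 3 ≤ n)
    (hc : ∀ u : V n → ℝ, ContDiff ℝ ∞ u → HasCompactSupport u → ∫ x, w x ^ (α - 1) * u x = 0 →
      c * Ms α u ≤ En α u) :
    c ≤ ((n : ℝ) + 2 * α - 2) ^ 2 / 4 := by
  have hn' : (3 : ℝ) ≤ n := by exact_mod_cast hn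
  by_contra hcon
  push Not at hcon
  set κ : ℝ := (2 - n - 2 * α) / 4 with hκ
  have hκpos : 0 < κ := by rw [hκ]; linarith
  have hck : 4 * κ ^ 2 < c := by
    refine lt_of_le_of_lt (le_of_eq ?_) hcon
    rw [hκ]; ring
  -- bounded quantities
  have p0 := int_w_pos (n := n) (s := α - 1) (by linarith)
  have hk1 : α + κ - 1 < -(n : ℝ) / 2 := by rw [hκ]; linarith
  set J0 := ∫ x : V n, w x ^ (α - 1) with hJ0
  set Jk := ∫ x : V n, w x ^ (α + κ - 1) with hJk
  have hJkpos : 0 < Jk := int_w_pos hk1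
  set j := ∫ x : V n, w x ^ (-(n : ℝ) / 2 - 2) with hj
  have hjpos : 0 < j := int_w_pos (by linarith)
  set B := Jk ^ 2 / J0 with hB
  -- for b < κ
  have main : ∀ δ : ℝ, 0 < δ → δ < κ → δ < 1/4 → (c - 4 * κ ^ 2) * (n * j / (4 * δ)) ≤ c * B := by
    intro δ hδ hδκ hδ4
    set b := κ - δ with hbdef
    have hb0 : 0 ≤ b := by linarith
    have hb : α + 2 * b - 1 < -(n : ℝ) / 2 := by rw [hbdef, hκ]; linarith
    have hbv : α + 2 * b - 1 = -(n : ℝ) / 2 - 2 * δ := by rw [hbdef, hκ]; ring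
    have h1 := upper_radial α c b hα hb hc
    have h2 := tail_le hb
    have h3 : ∫ x : V n, w x ^ (α + b - 1) ≤ Jk := by
      refine integral_mono (w_integrable (by linarith)) (w_integrable hk1) ?_
      intro x
      exact w_rpow_mono x (by linarith)
    have h3' : 0 ≤ ∫ x : V n, w x ^ (α + b - 1) := (int_w_pos (by linarith)).le
    set J2 := ∫ x : V n, w x ^ (α + 2 * b - 1) with hJ2
    have h4 : (∫ x : V n, w x ^ (α + b - 1)) ^ 2 / J0 ≤ B := by
      rw [hB]; gcongr
    have hcpos : 0 < c := lt_of_le_of_lt (by positivity) hck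
    have h5 : c * (J2 - B) ≤ 4 * κ ^ 2 * J2 := by
      calc c * (J2 - B) ≤ c * (J2 - (∫ x : V n, w x ^ (α + b - 1)) ^ 2 / J0) := by
            apply mul_le_mul_of_nonneg_left _ hcpos.le
            linarith
        _ ≤ 4 * b ^ 2 * ∫ x : V n, w x ^ (α + 2 * b - 1 - 1) * ‖x‖ ^ 2 := h1
        _ ≤ 4 * b ^ 2 * J2 := mul_le_mul_of_nonneg_left h2 (by positivity)
        _ ≤ 4 * κ ^ 2 * J2 := by
            have hJ2pos := int_w_pos hb
            have : b ≤ κ := by linarith
            gcongr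
    have h6 : (n : ℝ) * j / (4 * δ) ≤ J2 := by
      have r := J_rel hb
      rw [hbv] at r
      have hJ1 : j ≤ ∫ x : V n, w x ^ (-(n : ℝ) / 2 - 2 * δ - 1) := by
        refine integral_mono (w_integrable (by linarith)) (w_integrable (by linarith)) ?_
        intro x
        exact w_rpow_mono x (by linarith)
      rw [hJ2, hbv]
      rw [div_le_iff₀ (by positivity)]
      have e : (n : ℝ) + 2 * (-(n : ℝ) / 2 - 2 * δ) = -(4 * δ) := by ring
      rw [e] at r
      have : (∫ x : V n, w x ^ (-(n : ℝ) / 2 - 2 * δ)) * (4 * δ) =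
          ((n : ℝ) + 4 * δ) * ∫ x : V n, w x ^ (-(n : ℝ) / 2 - 2 * δ - 1) := by
        have e2 : 2 * (-(n : ℝ) / 2 - 2 * δ) = -((n : ℝ) + 4 * δ) := by ring
        rw [e2] at r
        linarith
      rw [this]
      have hn0 : (0:ℝ) ≤ n := by linarith
      nlinarith [mul_le_mul_of_nonneg_left hJ1 hn0]
    calc (c - 4 * κ ^ 2) * (n * j / (4 * δ)) ≤ (c - 4 * κ ^ 2) * J2 := by
          apply mul_le_mul_of_nonneg_left h6; linarith
      _ ≤ c * B := by linarith
  -- let δ → 0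
  set D := (c - 4 * κ ^ 2) * (n * j) with hD
  have hDpos : 0 < D := by
    apply mul_pos (by linarith)
    apply mul_pos (by linarith) hjpos
  have main2 : ∀ δ : ℝ, 0 < δ → δ < κ → δ < 1/4 → D ≤ c * B * (4 * δ) := by
    intro δ h1 h2 h3
    have := main δ h1 h2 h3
    rw [← mul_div_assoc, div_le_iff₀ (by positivity)] at this
    exact this
  have L : Tendsto (fun δ : ℝ => c * B * (4 * δ)) (𝓝[>] 0) (𝓝 (c * B * (4 * 0))) := by
    apply tendsto_nhdsWithin_of_tendsto_nhds
    apply Continuous.tendsto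
    fun_prop
  have hev : ∀ᶠ δ : ℝ in 𝓝[>] 0, D ≤ c * B * (4 * δ) := by
    filter_upwards [Ioo_mem_nhdsGT (show (0:ℝ) < min κ (1/4) by positivity)] with δ hδ
    exact main2 δ hδ.1 (lt_of_lt_of_le hδ.2 (min_le_left _ _)) (lt_of_lt_of_le hδ.2 (min_le_right _ _))
  have := ge_of_tendsto L hev
  simp at this
  linarith

end Pool.Agent.H779R2.Hardy
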